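import Pool.Agent.P.MP_de9ecd_al.Law3

/-!
# Laws of symmetric groups: the periodic gadget with margins `2 M`
-/

namespace Pool.Agent.P.MP_de9ecd_al.Law.B

open Equiv Finset

section
variable {α Y ι : Type}

/-- A maximal periodic run of length `s` and the length `c` of the cycle on which it is put. -/
structure Dat (W : ℕ → α × Bool) (M x y a s c d : ℕ) : Prop where
  d0 : 0 < d
  dM : d ≤ M
  dc : d ∣ c
  xa : x < a
  ay : a + s ≤ y
  sM : (M + M) < s
  sc : s + 2 * ((M + M) + 1) ≤ c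
  per : ∀ t < s, W (a + t) = pu W a d t
  rb : W (a + s) ≠ pu W a d s
  lb : W (a - 1) ≠ W (a + (d - 1))

variable {W : ℕ → α × Bool} {M x y a s c d : ℕ}

theorem Dat.red (h : Dat W M x y a s c d) (hW : Red W) : Red (pu W a d) := fun t => by
  have h1 := Nat.mod_lt t h.d0
  have h2 : M ≤ (M + M) := Nat.le_add_right M M
  have h3 := h.per (t % d + 1) (by have := h.dM; have := h.sM; omega)
  have e : pu W a d (t + 1) = pu W a d (t % d + 1) := by simp [pu]
  rw [e, ← h3]
  exact hW (a + t % d)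

theorem Dat.red_br (h : Dat W M x y a s c d) (hW : Red W) (ε : Bool) : Red (br W a c d ε) := by
  intro t
  have hc := h.sc
  rcases lt_trichotomy (t + 1) a with ht | ht | ht
  · simp only [br, if_pos ht, if_pos (show t < a by omega)]
    exact hW t
  · subst ht
    simp only [br, lt_irrefl, if_false, if_pos (Nat.lt_succ_self t), Nat.sub_self]
    cases ε
    · intro e
      refine h.lb ?_
      obtain ⟨k, hk⟩ := h.dc
      have hd := h.d0
      obtain ⟨k, rfl⟩ : ∃ j, k = j + 1 := ⟨k - 1, by rcases k with _ | k <;> simp_all⟩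
      have e1 : c - 1 - 0 = d - 1 + d * k := by rw [hk, mul_add]; omega
      have e2 := iv_inj e
      rw [e1, pu_add W _ (dvd_mul_right d k), pu, Nat.mod_eq_of_lt (by omega)] at e2
      exact e2.symm
    · simpa [pu] using hW t
  · simp only [br, if_neg (show ¬ t + 1 < a by omega), if_neg (show ¬ t < a by omega)]
    cases ε
    · simp only [cond_false, iv_iv]
      by_cases h0 : c - 1 - (t - a) = 0
      · rw [h0, show c - 1 - (t + 1 - a) = 0 by omega]
        exact iv_ne _
      · rw [show c - 1 - (t - a) = c - 1 - (t + 1 - a) + 1 by omega]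
        exact (h.red hW _).symm
    · rw [show t + 1 - a = t - a + 1 by omega]
      exact h.red hW _

theorem Dat.br_lt (h : Dat W M x y a s c d) {ε : Bool} {t : ℕ} (ht : t < a + cond ε s 0) :
    br W a c d ε t = W t := by
  rw [br]
  split_ifs with h1
  · rfl
  · cases ε
    · exact absurd ht h1
    · rw [cond_true] at ht ⊢
      rw [← h.per _ (by omega), Nat.add_sub_cancel' (not_lt.1 h1)]

theorem Dat.br_ne (h : Dat W M x y a s c d) (hW : Red W) (ε : Bool) :
    br W a c d ε (a + cond ε s 0) ≠ W (a + cond ε s 0) := by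
  rw [br, if_neg (by omega)]
  cases ε
  · have := h.red hW (c - 1)
    have hc := h.sc
    rw [show c - 1 + 1 = 0 + c by omega, pu_add W a h.dc] at this
    simpa [pu] using this.symm
  · simpa using h.rb.symm

theorem Dat.clash {a' s' c' d' : ℕ} (h : Dat W M x y a s c d) (h' : Dat W M x y a' s' c' d')
    (hW : Red W) (e : a + s = a') :
    ∃ j < (M + M), br W a c d true (a' + j) ≠ br W a' c' d' false (a' + j) := by
  by_contra hc
  push Not at hc
  have d0 := h.d0
  have d0' := h'.d0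
  have dM := h.dM
  have dM' := h'.dM
  have h3 := h'.sc
  have h4 := h.sM
  have k : ∀ i, 0 < i → i ≤ M + M → pu W a d (s - 1 + i) = iv (pu W a' d' (c' - i)) := fun i i0 i1 => by
    have e' := hc (i - 1) (by omega)
    rwa [br, br, if_neg (by omega), if_neg (by omega), cond_true, cond_false,
      show a' + (i - 1) - a = s - 1 + i by omega,
      show c' - 1 - (a' + (i - 1) - a') = c' - i by omega] at e'
  have k1 := k d d0 (by omega)
  have k2 := k (d + d') (by omega) (by omega)
  have k3 := k d' d0' (by omega)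
  rw [pu_add W a dvd_rfl, show c' - d = c' - (d + d') + d' by omega, pu_add W a' dvd_rfl, ← k2,
    show s - 1 + (d + d') = s - 1 + d' + d by omega, pu_add W a dvd_rfl, k3,
    ← pu_add W a' (dvd_refl d') (c' - d'), show c' - d' + d' = 0 + c' by omega,
    pu_add W a' h'.dc, ← h.per _ (by omega)] at k1
  refine hW (a + (s - 1)) ?_
  rw [k1, iv_iv, show a + (s - 1) + 1 = a' by omega]
  simp [pu]

theorem realC_tree (hW : Red W) (D : Finset ℕ) (s c d : ℕ → ℕ)
    (h : ∀ a ∈ D, Dat W M x y a (s a) (c a) (d a))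
    (hi : ∀ a ∈ D, ∀ a' ∈ D, a + s a = a' + s a' → a = a') :
    RealC W x y D c d (y + 2 - x + ∑ a ∈ D, c a) := by
  classical
  obtain ⟨Z, hZ⟩ : ∃ Z : ℕ → Bool → ℕ → α × Bool, Z = fun a => br W a (c a) (d a) := ⟨_, rfl⟩
  obtain ⟨μ, hμ⟩ : ∃ μ : ℕ → Bool → ℕ, ∀ a ε,
    μ a ε = a + cond ε (s a + ((M + M) + 1)) (c a - s a - ((M + M) + 1) - 1) := ⟨_, fun _ _ => rfl⟩
  have zr : ∀ a ∈ D, ∀ ε, Red (Z a ε) := fun a ha ε => hZ ▸ (h a ha).red_br hW ε
  have zl : ∀ a ∈ D, ∀ ε t, t < a + cond ε (s a) 0 → Z a ε t = W t := fun a ha ε t ht =>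
    hZ ▸ (h a ha).br_lt ht
  have zn : ∀ a ∈ D, ∀ ε, Z a ε (a + cond ε (s a) 0) ≠ W (a + cond ε (s a) 0) := fun a ha ε =>
    hZ ▸ (h a ha).br_ne hW ε
  have zt : ∀ a t, Z a true (a + t) = pu W a (d a) t := fun a t => by simp [hZ, br]
  have zf : ∀ a t, Z a false (a + t) = iv (pu W a (d a) (c a - 1 - t)) := fun a t => by
    simp [hZ, br]
  have hm : ∀ a ∈ D, ∀ ε, a + cond ε (s a) 0 + (M + M) ≤ μ a ε := fun a ha ε => by
    have := (h a ha).sc
    rw [hμ]
    cases ε <;> simp only [cond_true, cond_false] <;> omega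
  have K1 : ∀ a ∈ D, ∀ ε t t', edg (tree α) (Z a ε) 1 t = edg (tree α) W 1 t' →
      t = t' ∧ t < a + cond ε (s a) 0 := fun a ha ε t t' e => by
    have := edg_tree (zr a ha ε) hW e
    exact ⟨this.1, not_le.1 fun hle => zn a ha ε (this.2 _ hle)⟩
  have K2 : ∀ a ∈ D, ∀ a' ∈ D, ∀ ε ε' t, edg (tree α) (Z a ε) 1 (μ a ε) =
      edg (tree α) (Z a' ε') 1 t → a = a' ∧ ε = ε' ∧ μ a ε = t := fun a ha a' ha' ε ε' t e => by
    obtain ⟨e1, e2⟩ := edg_tree (zr a ha ε) (zr a' ha' ε') e
    have h1 := hm a ha ε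
    rcases lt_trichotomy (a + cond ε (s a) 0) (a' + cond ε' (s a') 0) with hlt | heq | hlt
    · exact absurd ((e2 _ (by omega)).trans (zl a' ha' ε' _ hlt)) (zn a ha ε)
    · cases ε <;> cases ε' <;> simp only [cond_true, cond_false, add_zero] at heq h1
      · exact ⟨heq, rfl, e1⟩
      · obtain ⟨j, hj, hne⟩ := (h a' ha').clash (h a ha) hW heq.symm
        exact absurd (by simpa only [hZ] using (e2 (a + j) (by omega)).symm) hne
      · obtain ⟨j, hj, hne⟩ := (h a ha).clash (h a' ha') hW heq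
        exact absurd (by simpa only [hZ] using e2 (a' + j) (by omega)) hne
      · exact ⟨hi a ha a' ha' heq, rfl, e1⟩
    · exact absurd ((e2 _ (by omega)).symm.trans (zl a ha ε _ hlt)) (zn a' ha' ε')
  have back : ∀ a t, t < c a → st (tree α) (pu W a (d a) t)
      (walk (tree α) (Z a false) 1 (a + (c a - t))) = walk (tree α) (Z a false) 1 (a + (c a - (t + 1))) ∧
      ed (tree α) (pu W a (d a) t) (walk (tree α) (Z a false) 1 (a + (c a - t))) =
        edg (tree α) (Z a false) 1 (a + (c a - (t + 1))) := fun a t ht => by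
    have e := zf a (c a - (t + 1))
    rw [show c a - 1 - (c a - (t + 1)) = t by omega] at e
    rw [show a + (c a - t) = a + (c a - (t + 1)) + 1 by omega, walk, ← iv_iv (pu W a (d a) t), ← e]
    exact ⟨st_iv _ _ _, ed_iv _ _ _⟩
  obtain ⟨u, hu⟩ : ∃ u : ℕ → Bool → FreeGroup α, ∀ a ε, u a ε =
    walk (tree α) (Z a ε) 1 (a + cond ε (s a + ((M + M) + 1)) (c a - (s a + ((M + M) + 1)))) :=
    ⟨_, fun _ _ => rfl⟩
  have eu : ∀ a ∈ D, ∀ ε, ed (tree α) (pu W a (d a) (s a + ((M + M) + 1))) (u a ε) =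
      edg (tree α) (Z a ε) 1 (μ a ε) := fun a ha ε => by
    have := (h a ha).sc
    rw [hu, hμ]
    cases ε
    · rw [cond_false, cond_false, (back a _ (by omega)).2]
      congr 2
      omega
    · rw [cond_true, cond_true, edg, zt]
  obtain ⟨σ, s1, s2⟩ := multi_swap (tree α) D (fun a => pu W a (d a) (s a + ((M + M) + 1))) u
    fun a ha a' ha' ε ε' e => (K2 a ha a' ha' ε ε' _ ((eu a ha ε).symm.trans (e.trans (eu a' ha' ε')))).1
  have main : ∀ t, st σ (W t) (walk (tree α) W 1 t) = st (tree α) (W t) (walk (tree α) W 1 t) :=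
    fun t => s2 _ _ fun a ha ε e => by
      have := K1 a ha ε _ t ((eu a ha ε).symm.trans e.symm)
      have := hm a ha ε
      omega
  have side : ∀ a ∈ D, ∀ ε t l v, t < μ a ε → ed (tree α) l v = edg (tree α) (Z a ε) 1 t →
      st σ l v = st (tree α) l v := fun a ha ε t l v ht e => s2 _ _ fun a' ha' ε' e' => by
    obtain ⟨rfl, rfl, h3⟩ := K2 a' ha' a ha ε' ε t ((eu a' ha' ε').symm.trans (e'.symm.trans e))
    omega
  obtain ⟨cy, hcy⟩ : ∃ cy : ℕ → ℕ → FreeGroup α, ∀ a t, cy a t = if t ≤ s a + ((M + M) + 1) then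
    walk (tree α) (Z a true) 1 (a + t) else walk (tree α) (Z a false) 1 (a + (c a - t)) :=
    ⟨_, fun _ _ => rfl⟩
  have step : ∀ a ∈ D, ∀ t < c a, st σ (pu W a (d a) t) (cy a t) = cy a (t + 1) ∧
      ∃ ε j, ed σ (pu W a (d a) t) (cy a t) = edg (tree α) (Z a ε) 1 (a + j) := by
    intro a ha t ht
    rcases lt_trichotomy t (s a + ((M + M) + 1)) with hlt | rfl | hlt
    · have e : ed (tree α) (pu W a (d a) t) (cy a t) = edg (tree α) (Z a true) 1 (a + t) := by
        rw [hcy, if_pos hlt.le, edg, zt]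
      have e' := side a ha true _ _ _ (by rw [hμ, cond_true]; omega) e
      refine ⟨?_, true, t, (ed_congr e').trans e⟩
      rw [e', hcy, hcy, if_pos hlt.le, if_pos (by omega), ← add_assoc, walk, zt]
    · have e : cy a (s a + ((M + M) + 1)) = u a true := by rw [hcy, if_pos le_rfl, hu, cond_true]
      rw [e]
      refine ⟨?_, ?_⟩
      · rw [s1 a ha, hu, cond_false, (back a _ ht).1, hcy, if_neg (by omega)]
      · rcases ed_swap (s1 a ha) with e' | e' <;> rw [e', eu a ha, hμ] <;> exact ⟨_, _, rfl⟩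
    · have e : ed (tree α) (pu W a (d a) t) (cy a t) =
          edg (tree α) (Z a false) 1 (a + (c a - (t + 1))) := by
        rw [hcy, if_neg (by omega), (back a t ht).2]
      have e' := side a ha false _ _ _ (by rw [hμ, cond_false]; omega) e
      refine ⟨?_, false, _, (ed_congr e').trans e⟩
      rw [e', hcy, hcy, if_neg (by omega), if_neg (by omega), (back a t ht).1]
  have w0 : ∀ a ∈ D, ∀ ε, walk (tree α) (Z a ε) 1 a = walk (tree α) W 1 a := fun a ha ε =>
    walk_congr _ _ fun i hi => zl a ha ε i (by omega)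
  have wc : ∀ a ∈ D, ∀ t ≤ c a, walk σ (pu W a (d a)) (walk (tree α) W 1 a) t = cy a t := by
    intro a ha t
    induction t with
    | zero => intro _; rw [hcy, if_pos (Nat.zero_le _), add_zero, w0 a ha, walk]
    | succ t ih => intro ht; rw [walk, ih (by omega), (step a ha t ht).1]
  refine ⟨_, σ, walk (tree α) W 1, (Icc x (y + 1)).image (walk (tree α) W 1) ∪
    D.biUnion fun a => (range (c a)).image (cy a), ?_, fun t h1 h2 => ?_,
    fun t _ _ => (main t).symm, fun t t' _ _ _ e => ?_, fun a ha => ⟨?_, fun t ht => ⟨?_, ?_⟩⟩⟩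
  · refine (card_union_le _ _).trans (add_le_add (card_image_le.trans (by simp))
      (card_biUnion_le.trans (sum_le_sum fun a _ => card_image_le.trans (by simp))))
  · exact mem_union_left _ (mem_image_of_mem _ (mem_Icc.2 ⟨h1, h2⟩))
  · rw [ed_congr (main t), ed_congr (main t')] at e
    exact (edg_tree hW hW e).1
  · have := (h a ha).sc
    rw [wc a ha _ le_rfl, hcy, if_neg (by omega), Nat.sub_self, add_zero, w0 a ha]
  · rw [wc a ha t ht.le]
    exact mem_union_right _ (mem_biUnion.2 ⟨a, ha, mem_image_of_mem _ (mem_range.2 ht)⟩)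
  · intro t' ht' e
    obtain ⟨-, ε, j, e'⟩ := step a ha t ht
    rw [edg, wc a ha t ht.le, e', ed_congr (main t')] at e
    have h1 := K1 a ha ε _ t' e
    have h2 := (h a ha).xa
    have h3 := (h a ha).ay
    cases ε <;> simp only [cond_true, cond_false] at h1 <;> omega

end

section
variable {α Y : Type} {W W' : ℕ → α × Bool} {M l x y q t a m d : ℕ}

theorem nofb (hd : d ≤ M) (per : ∀ j < m, W (a + j) = pu W a d j) (rb : W (a + m) ≠ pu W a d m)
    (h0 : 0 < d) (hm : (M + M) ≤ m) (h1 : t + (M + M) ≤ a + m) (h2 : a + m < t + l) : ¬ fb W M l t := by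
  rintro ⟨d', k0, k1, k2⟩
  have e1 := k2 (a + m - d' - t) (by omega)
  have e2 := k2 (a + m - d - d' - t) (by omega)
  rw [show t + (a + m - d' - t) + d' = a + m by omega,
    show t + (a + m - d' - t) = a + (m - d') by omega, per (m - d') (by omega)] at e1
  rw [show t + (a + m - d - d' - t) + d' = a + (m - d) by omega,
    show t + (a + m - d - d' - t) = a + (m - d - d') by omega, per (m - d) (by omega),
    per (m - d - d') (by omega), ← pu_add W a (dvd_refl d) (m - d), ← pu_add W a (dvd_refl d) (m - d - d'),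
    show m - d + d = m by omega, show m - d - d' + d = m - d' by omega] at e2
  exact rb (e1.trans e2.symm)

theorem Dat.congr {s c y' : ℕ} (h : Dat W M x y a s c d) (e : ∀ t ≤ a + s, W' t = W t)
    (hy : a + s ≤ y') : Dat W' M x y' a s c d ∧ pu W' a d = pu W a d := by
  have h1 := h.dM
  have h2 := h.sM
  have h3 : M ≤ (M + M) := Nat.le_add_right M M
  have k : pu W' a d = pu W a d := funext fun t => e _ (by have := Nat.mod_lt t h.d0; omega)
  refine ⟨⟨h.d0, h.dM, h.dc, h.xa, hy, h.sM, h.sc, fun t ht => ?_, ?_, ?_⟩, k⟩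
  · rw [k, e _ (by omega), h.per t ht]
  · rw [k, e _ le_rfl]
    exact h.rb
  · rw [e _ (by omega), e _ (by omega)]
    exact h.lb

theorem gad {U C w : ℕ} (hl : (M + M) + M < l)
    (hc : ∀ d m, 0 < d → d ≤ M → l ≤ m → m ≤ U →
      ∃ c, d ∣ c ∧ (M + M) < m % c ∧ m % c + 2 * ((M + M) + 1) ≤ c ∧ c ≤ C) (F : ℕ) :
    ∀ (W : ℕ → α × Bool) (y q h : ℕ) (D : Finset ℕ) (s c d : ℕ → ℕ), Red W → y ≤ U → x ≤ q →
      y ≤ q + F * (l - (M + M)) → ¬ fb W M l q → (q + l ≤ y + 1 → ¬ fb W M l (y + 1 - l)) →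
      Cov W M l w q h y → (∀ a ∈ D, Dat W M x y a (s a) (c a) (d a) ∧ a + s a ≤ q + (M + M)) →
      (∀ a ∈ D, ∀ a' ∈ D, a + s a = a' + s a' → a = a') →
      RealC W x y D c d (q - x + ∑ a ∈ D, c a + h + w + l + 2 + F * (2 * C + 2 * w + 1)) := by
  have mono : ∀ {W : ℕ → α × Bool} {y D c d n n'}, RealC W x y D c d n → n ≤ n' →
      RealC W x y D c d n' := fun ⟨Y, σ, p, S, h1, h2⟩ hn => ⟨Y, σ, p, S, h1.trans hn, h2⟩
  induction F with
  | zero =>
    intro W y q h D s c d hW _ hx hy _ _ _ hD hi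
    exact mono (realC_tree hW D s c d (fun a ha => (hD a ha).1) hi) (by omega)
  | succ F ih =>
    intro W y q h D s c d hW hU hx hy hq hy' hv hD hi
    by_cases hs : y ≤ q + h + w + l
    · exact mono (realC_tree hW D s c d (fun a ha => (hD a ha).1) hi) (by omega)
    obtain ⟨t, t1, t2, t3, t4⟩ := hv (q + h) le_rfl (by omega)
    obtain ⟨a, m, d₀, r1, r2, r3, r4, r5, r6, r7, r8, r9⟩ :=
      exists_run hq t1 t2 (by omega) (hy' (by omega)) (by omega)
    obtain ⟨c₀, c1, c2, c3, c4⟩ := hc d₀ m r1 r2 (by omega) (by omega)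
    have c5 := Nat.mod_add_div m c₀
    have c6 : d₀ ∣ c₀ * (m / c₀) := c1.mul_right _
    generalize m % c₀ = s₀ at c2 c3 c5
    generalize m / c₀ = k at c5 c6
    obtain ⟨K, hK⟩ : ∃ K, K = c₀ * k := ⟨_, rfl⟩
    rw [← hK] at c5 c6
    have hM : M ≤ (M + M) := Nat.le_add_right M M
    obtain ⟨W', e1, e2⟩ : ∃ W' : ℕ → α × Bool, (∀ t < a, W' t = W t) ∧
        ∀ t, a ≤ t → W' t = W (t + K) :=
      ⟨fun t => if t < a then W t else W (t + K), fun t ht => if_pos ht, fun t ht => if_neg (by omega)⟩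
    have e3 : ∀ t < a + s₀, W' t = W t := fun t ht => by
      rcases lt_or_ge t a with c | c
      · exact e1 t c
      · obtain ⟨j, rfl⟩ := Nat.exists_eq_add_of_le c
        rw [e2 _ c, add_assoc, r7 _ (by omega), r7 _ (by omega), pu_add W a c6]
    have e4 : pu W' a d₀ = pu W a d₀ := funext fun t => e3 _ (by have := Nat.mod_lt t r1; omega)
    have hW' : Red W' := fun t => by
      rcases lt_or_ge t a with c | c
      · rw [e3 _ (by omega), e1 t c]
        exact hW t
      · rw [e2 t c, e2 _ (by omega), add_right_comm]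
        exact hW _
    have na : ∀ a' ∈ D, a' < a := fun a' ha' => by
      have := (hD a' ha').1.sM
      have := (hD a' ha').2
      omega
    have na' : a ∉ D := fun h => (na a h).false
    have dt : Dat W' M x (y - K) a s₀ c₀ d₀ := by
      refine ⟨r1, r2, c1, by omega, by omega, c2, c3, fun t ht => ?_, ?_, ?_⟩
      · rw [e4, e3 _ (by omega), r7 t (by omega)]
      · rw [e4, e2 _ (by omega), add_assoc, c5, ← pu_add W a c6, c5]
        exact r8
      · rw [e3 _ (by omega), e3 _ (by omega)]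
        exact r9
    have up : ∀ (f : ℕ → ℕ) (v : ℕ), ∀ a' ∈ D, Function.update f a v a' = f a' := fun f v a' ha' =>
      Function.update_of_ne (na a' ha').ne _ _
    have old := fun a' (ha' : a' ∈ D) => (hD a' ha').1.congr (W' := W') (y' := y - K)
      (fun t ht => e3 t (by have := (hD a' ha').2; omega)) (by have := (hD a' ha').2; omega)
    rw [Nat.succ_mul] at hy ⊢
    have R := ih W' (y - K) (a + s₀ - (M + M)) ((M + M) + w + 1) (insert a D) (Function.update s a s₀)
      (Function.update c a c₀) (Function.update d a d₀) hW' (by omega) (by omega) (by omega)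
      (nofb r2 dt.per dt.rb r1 c2.le (by omega) (by omega))
      (fun k f => hy' (by omega) (fb_congr f fun i _ => by
        rw [e2 _ (by omega)]; congr 1; omega))
      (fun z z1 z2 => ?_) (fun a' ha' => ?_) (fun a' ha' a'' ha'' e => ?_)
    · have R' := R.unwrap (W := W) (k := k) (by omega) (by omega) (by simpa using c1)
        (by simp; omega) e1 (by simpa [← hK] using e2)
        (fun j hj => by
          rw [Function.update_self, ← hK] at hj
          rw [Function.update_self, e4, r7 j (by omega)])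
        fun a' ha' => ⟨na a' ha', by rw [up d d₀ a' ha', (old a' ha').2]⟩
      rw [Function.update_self, ← hK, show y - K + K = y by omega, sum_insert na',
        Function.update_self, sum_congr rfl (up c c₀)] at R'
      obtain ⟨Y, σ, p, S, h1, h2, h3, h4, h5⟩ := R'
      refine ⟨Y, σ, p, S, h1.trans ?_, h2, h3, h4, fun a' ha' => ?_⟩
      · change _ ≤ _ + D.sum c + _ + _ + _ + _ + _
        generalize (M + M) = N at *
        omega
      · have := h5 a' ha'
        rwa [up c c₀ a' ha', up d d₀ a' ha'] at this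
    · obtain ⟨t', u1, u2, u3, u4⟩ := hv (z + K) (by omega) (by omega)
      have u5 : a + m - (M + M) ≤ t' := by
        by_contra c
        exact nofb r2 r7 r8 r1 (by omega) (by omega) (by omega) u2
      exact ⟨t' - K, by omega, fb_congr u2 fun i _ => by rw [e2 _ (by omega)]; congr 1; omega,
        by omega, by omega⟩
    · rcases mem_insert.1 ha' with rfl | ha'
      · simp only [Function.update_self]
        exact ⟨dt, by omega⟩
      · rw [up s s₀ a' ha', up c c₀ a' ha', up d d₀ a' ha']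
        exact ⟨(old a' ha').1, by have := (hD a' ha').2; omega⟩
    · rcases mem_insert.1 ha' with rfl | k1 <;> rcases mem_insert.1 ha'' with rfl | k2
      · rfl
      · rw [up s s₀ _ k2, Function.update_self] at e
        have := (hD _ k2).2
        omega
      · rw [up s s₀ _ k1, Function.update_self] at e
        have := (hD _ k1).2
        omega
      · rw [up s s₀ _ k1, up s s₀ _ k2] at e
        exact hi _ k1 _ k2 e

theorem exists_mod {U R : ℕ} (hR : (R + 1) * (U * (U + 1)) < 2 ^ R) (h0 : 0 < d) (hd : d ≤ M)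
    (hm : 2 * ((M + M) + 1) + M ≤ m) (hU : m ≤ U) : ∃ c, d ∣ c ∧ (M + M) < m % c ∧
      m % c + 2 * ((M + M) + 1) ≤ c ∧ c ≤ (2 * ((M + M) + 1) + M) * R := by
  generalize (M + M) = N at *
  have a1 := Nat.div_add_mod (2 * (N + 1)) d
  have a2 := Nat.mod_lt (2 * (N + 1)) h0
  obtain ⟨D, hD⟩ : ∃ D, D = d * (2 * (N + 1) / d + 1) := ⟨_, rfl⟩
  have a3 : 2 * (N + 1) < D ∧ D ≤ 2 * (N + 1) + M := by rw [hD, mul_add d]; omega
  have a4 : 0 < m / D := Nat.div_pos (by omega) (by omega)
  have a5 : m / D ≤ U := (Nat.div_le_self _ _).trans hU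
  obtain ⟨ρ, r1, r2, r3⟩ : ∃ ρ ∈ Icc 1 R, ¬ ρ ∣ m / D ∧ ¬ ρ ∣ m / D + 1 := by
    by_contra c
    push Not at c
    have : Nat.lcmUpto R ∣ m / D * (m / D + 1) := Finset.lcm_dvd fun ρ hρ =>
      (em (ρ ∣ m / D)).elim (fun h => h.mul_right _) fun h => (c ρ hρ h).mul_left _
    have h1 := (Nat.le_of_dvd (by positivity) this).trans
      (Nat.mul_le_mul a5 (Nat.succ_le_succ a5))
    exact absurd ((Chebyshev.two_pow_le_mul_lcmUpto R).trans (Nat.mul_le_mul_left _ h1)) hR.not_ge
  rw [mem_Icc] at r1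
  have b1 := Nat.mod_lt (m / D) r1.1
  have b2 : 1 ≤ m / D % ρ := Nat.pos_of_ne_zero fun h => r2 (Nat.dvd_of_mod_eq_zero h)
  have b3 : m / D % ρ + 2 ≤ ρ := by
    by_contra c
    refine r3 ⟨m / D / ρ + 1, ?_⟩
    have := Nat.div_add_mod (m / D) ρ
    rw [mul_add]
    omega
  have b4 := Nat.mod_lt m (show 0 < D by omega)
  have b5 := Nat.mul_le_mul_left D b2
  have b6 := Nat.mul_le_mul_left D b3
  refine ⟨D * ρ, (hD ▸ dvd_mul_right _ _ : d ∣ D).mul_right _, ?_, ?_, Nat.mul_le_mul a3.2 r1.2⟩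
  · rw [Nat.mod_mul]
    omega
  · rw [Nat.mod_mul]
    rw [mul_add] at b6
    omega

theorem gadget {ι : Type} {i : ι} {a b : ι → ℕ} {U R w h F : ℕ} (hW : Red W)
    (hR : (R + 1) * (U * (U + 1)) < 2 ^ R) (hl : 2 * ((M + M) + 1) + M ≤ l) (hab : a i < b i)
    (hU : b i ≤ U) (hF : b i ≤ a i + F * (l - (M + M))) (h1 : ¬ fb W M l (a i))
    (h2 : ¬ fb W M l (b i + 1 - l)) (hv : Cov W M l w (a i) h (b i)) :
    Real W {i} a b (h + w + l + 2 + F * (2 * ((2 * ((M + M) + 1) + M) * R) + 2 * w + 1)) := by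
  obtain ⟨Y, σ, p, S, k1, k2, k3, k4, -⟩ := gad (x := a i) (by omega)
    (fun d m h0 hd hm hU => exists_mod hR h0 hd (hl.trans hm) hU) F W (b i) (a i) h ∅ id id id hW hU
    le_rfl hF h1 (fun _ => h2) hv (by simp) (by simp)
  refine ⟨by simpa using hab, Y, σ, fun _ => p, S, by simpa using k1, by simpa using k2,
    by simpa using k3, fun j hj j' hj' t t' a1 a2 a3 e => ?_⟩
  rw [mem_singleton] at hj hj'
  subst hj hj'
  exact ⟨rfl, k4 t t' a1 a2 a3 e⟩

end

end Pool.Agent.P.MP_de9ecd_al.Law.B
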