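import Pool.Agent.P.MP_de9ecd_al.LB.Iface
import Pool.Agent.P.MP_de9ecd_al.LB.Gad

/-!
# Laws of symmetric groups, polynomial gain: all segments
-/

namespace Pool.Agent.P.MP_de9ecd_al.Law

open Equiv Finset

variable {α ι : Type} [Fintype α] [DecidableEq α] {W : ℕ → α × Bool} {M k K A R x y : ℕ}

theorem real_fun (hR : S_ROUND) {x y : ι → ℕ} (hW : Red W) (hM : 0 < M) (hk : 0 < k)
    (hA : 4 * (K * K) ≤ A * (M * M)) (s : ℕ) : ∀ I : Finset ι, #I * 319 ^ s < 320 ^ s →
    (∀ i ∈ I, Fr W M k M (x i) ∧ Fr W M k M (y i) ∧ x i + 2 * k + 2 * M + 2 ≤ y i ∧ y i ≤ x i + K) →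
    Real W I x y (#I * (320 * A + (2 * k + 2 * M + 6)) + s * (16 * (K * K))) := by
  classical
  induction s with
  | zero =>
    intro I hI _
    obtain rfl : I = ∅ := card_eq_zero.1 (by omega)
    exact (real_empty W x y).mono (Nat.zero_le _)
  | succ s ih =>
    intro I hI h
    obtain ⟨J, j0, j1, j2⟩ := hR W M k K (A * #I + 16 * (K * K)) I x y hW hM hk h
      (Nat.le_add_left _ _) (by
        have := Nat.mul_le_mul_right #I hA
        rw [add_mul]
        nlinarith [Nat.zero_le (16 * (K * K) * (M * M))])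
    have j3 := card_sdiff_add_card_eq_card j0
    have j5 := j2.union (ih (I \ J) (by
      have e : #(I \ J) * 320 ≤ #I * 319 := by omega
      have := Nat.mul_le_mul_right (319 ^ s) e
      rw [pow_succ, pow_succ] at hI
      nlinarith) fun i hi => h i (mem_sdiff.1 hi).1)
    rw [union_sdiff_of_subset j0] at j5
    refine j5.mono ?_
    have j6 := Nat.mul_le_mul_left A j1
    rw [← j3] at j6 ⊢
    nlinarith

theorem real_all' (hS : S_ROUND) {m G s : ℕ} (hW : Red W) (h0 : 0 < M)
    (hA : 4 * (K * K) ≤ A * (M * M)) (hR : (R + 1) * (y * (y + 1)) < 2 ^ R)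
    (hM : 2 * (M + M + 1) + M ≤ k) (hx : ¬ fb W M k x) (hy : ¬ fb W M k (y + 1 - k)) (hxy : x < y)
    (hm : y ≤ m * K) (hs : (2 * m + 1) * 319 ^ s < 320 ^ s)
    (hG : 2 * ((2 * (M + M + 1) + M) * R) + 2 * (M + 1) + 1 ≤ G) :
    Real W {0} (fun _ => x) (fun _ => y)
      ((2 * m + 1) * (320 * A + 4 * k + 5 * M + 10 + G) + s * (16 * (K * K)) +
        y / (k - (M + M)) * G) := by
  classical
  obtain ⟨q, hq, c, c0, c1, c2⟩ := chain_all (w := M) (by omega) hx hy hxy hm
  have hD : 0 < k - (M + M) := by omega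
  have lt : ∀ j < q + 1, c j < c (j + 1) := fun j hj => by
    rcases (c2 j hj).2 with e | e
    · have := e.2.2.1
      omega
    · exact e.1
  obtain ⟨P, hP⟩ : ∃ P : ℕ → Prop, ∀ i, P i ↔ RT W M k M K (c i) (c (i + 1)) ∧
    c i + 2 * k + 2 * M + 2 ≤ c (i + 1) := ⟨_, fun _ => Iff.rfl⟩
  have t4 := card_filter_le (range (q + 1)) P
  rw [card_range] at t4
  have r1 := real_fun hS (k := k) (x := c) (y := fun i => c (i + 1)) hW h0 (by omega) hA s
    ((range (q + 1)).filter P)
    (lt_of_le_of_lt (Nat.mul_le_mul_right _ (t4.trans (by omega))) hs)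
    fun i hi => by
      obtain ⟨⟨e1, e2, -, e4⟩, e3⟩ := (hP i).1 (mem_filter.1 hi).2
      exact ⟨e1, e2, e3, e4⟩
  have r2 := real_sum (W := W) (a := c) (b := fun i => c (i + 1))
    (I := (range (q + 1)).filter fun i => ¬ P i)
    (c := fun i => 2 * k + 3 * M + 4 + G + (c (i + 1) - c i) / (k - (M + M)) * G)
    fun i hi => by
      obtain ⟨i1, i2⟩ := mem_filter.1 hi
      obtain ⟨j1, j2⟩ := c2 i (mem_range.1 i1)
      rcases j2 with g | g
      · have g' : ¬ c i + 2 * k + 2 * M + 2 ≤ c (i + 1) := fun e => i2 ((hP i).2 ⟨g, e⟩)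
        refine (real_plain (a := c) (b := fun i => c (i + 1)) hW (lt i (mem_range.1 i1))).mono ?_
        omega
      refine (B.gadget (a := c) (b := fun i => c (i + 1))
        (F := (c (i + 1) - c i) / (k - (M + M)) + 1) hW hR hM g.1 j1 ?_ g.2.1 g.2.2.1 g.cov).mono ?_
      · have := Nat.lt_mul_div_succ (c (i + 1) - c i) hD
        rw [mul_comm] at this
        omega
      · have := Nat.mul_le_mul_left ((c (i + 1) - c i) / (k - (M + M)) + 1) hG
        rw [Nat.succ_mul _ G] at this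
        omega
  have r3 := r1.union r2
  rw [filter_union_filter_not_eq] at r3
  have r4 := r3.chain
  rw [c0, c1] at r4
  refine r4.mono ?_
  have t1 : ∀ j ≤ q + 1, ∑ i ∈ range j, (c (i + 1) - c i) ≤ c j := by
    intro j
    induction j with
    | zero => simp
    | succ j ih =>
      intro hj
      have := ih (by omega)
      have e := lt j (by omega)
      rw [sum_range_succ]
      omega
  have t2 : ∑ i ∈ range (q + 1), (c (i + 1) - c i) / (k - (M + M)) ≤ y / (k - (M + M)) := by
    rw [Nat.le_div_iff_mul_le hD, sum_mul, ← c1]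
    exact (sum_le_sum fun i _ => Nat.div_mul_le_self _ _).trans (t1 _ le_rfl)
  have t3 := (sum_le_sum_of_subset (f := fun i => 2 * k + 3 * M + 4 + G +
    (c (i + 1) - c i) / (k - (M + M)) * G) (filter_subset (fun i => ¬ P i) (range (q + 1))))
  rw [sum_add_distrib (s := range (q + 1)), ← sum_mul, sum_const, card_range, smul_eq_mul] at t3
  have t4' := Nat.mul_le_mul_right (320 * A + (2 * k + 2 * M + 6)) t4
  have t5 := Nat.mul_le_mul_right G t2
  have t6 := Nat.mul_le_mul_right (320 * A + 4 * k + 5 * M + 10 + G)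
    (show q + 1 ≤ 2 * m + 1 by omega)
  have t7 : (q + 1) * (320 * A + 4 * k + 5 * M + 10 + G) =
      (q + 1) * (320 * A + (2 * k + 2 * M + 6)) + (q + 1) * (2 * k + 3 * M + 4 + G) := by ring
  omega

end Pool.Agent.P.MP_de9ecd_al.Law
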