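import Pool.Agent.P.MP_de9ecd_al.LB.All

/-!
# Laws of symmetric groups, polynomial gain: the parameters
-/

namespace Pool.Agent.P.MP_de9ecd_al.Law

open Equiv Finset

theorem pow5_le {s : ℕ} (hs : 128 ≤ s) : 2 ^ 80 * (s + 1) ^ 5 ≤ 2 ^ s := by
  induction s, hs using Nat.le_induction with
  | base => norm_num
  | succ s hs ih =>
    have h1 : (7 * (s + 1 + 1)) ^ 5 ≤ (8 * (s + 1)) ^ 5 := Nat.pow_le_pow_left (by omega) 5
    rw [mul_pow, mul_pow] at h1
    rw [pow_succ 2 s]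
    generalize (s + 1 + 1) ^ 5 = a at *
    generalize (s + 1) ^ 5 = b at *
    generalize 2 ^ s = c at *
    norm_num at h1 ih ⊢
    omega

theorem rounds_lt {r R : ℕ} (h : r < 2 ^ R) : r * 319 ^ (320 * R) < 320 ^ (320 * R) := by
  have h1 : 2 * 319 ^ 320 ≤ 320 ^ 320 := by decide +kernel
  have h2 := Nat.pow_le_pow_left h1 R
  rw [mul_pow, ← pow_mul, ← pow_mul] at h2
  exact lt_of_lt_of_le (Nat.mul_lt_mul_of_pos_right h (by positivity)) h2

theorem cost_le' {z R k L n : ℕ} (hR : 1 ≤ R) (hz : 2 ^ 50 * R ^ 5 ≤ z)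
    (hk : k = 200 * (z ^ 3 * R) + z * (2000 * (z ^ 3 * R ^ 2))) (hn : z ^ 11 ≤ n)
    (hL : 1400 * L ≤ z * n) :
    (2 * ((k + 1 + L) / (z * k) + 1) + 1) *
        (320 * (1936 * (z ^ 4 * R ^ 2)) + 4 * k + 5 * (100 * (z ^ 3 * R)) + 10 +
          2000 * (z ^ 3 * R ^ 2)) + 320 * R * (16 * (z * k * (z * k))) +
      (k + 1 + L) / (z * (2000 * (z ^ 3 * R ^ 2))) * (2000 * (z ^ 3 * R ^ 2)) ≤ n := by
  have r5 : 1 ≤ R ^ 5 := Nat.one_le_pow _ _ hR
  have z1 : 2 ^ 50 ≤ z := le_trans (Nat.le_mul_of_pos_right _ r5) hz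
  have z0 : 0 < z := lt_of_lt_of_le (by norm_num) z1
  obtain ⟨u, hu⟩ : ∃ u, u = z ^ 4 * R ^ 2 := ⟨_, rfl⟩
  have u0 : 0 < u := by rw [hu]; positivity
  have a1 : z ^ 3 * R ≤ z ^ 3 * R ^ 2 := Nat.mul_le_mul_left _ (by nlinarith)
  have a2 : z ^ 3 * R ^ 2 ≤ u := by
    rw [hu]; exact Nat.mul_le_mul_right _ (Nat.pow_le_pow_right z0 (by norm_num))
  have a3 : z * (2000 * (z ^ 3 * R ^ 2)) = 2000 * u := by rw [hu]; ring
  have k1 : 2000 * u ≤ k := by omega
  have k2 : k ≤ 2200 * u := by omega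
  obtain ⟨y, hy⟩ : ∃ y, y = k + 1 + L := ⟨_, rfl⟩
  rw [← hy, ← hu]
  have b1 : 320 * (1936 * u) + 4 * k + 5 * (100 * (z ^ 3 * R)) + 10 + 2000 * (z ^ 3 * R ^ 2) ≤
      320 * k := by omega
  have b2 : y / (z * k) * k ≤ y / z := by
    rw [← Nat.div_div_eq_div_mul]; exact Nat.div_mul_le_self _ _
  have b3 : y / (z * (2000 * (z ^ 3 * R ^ 2))) * (2000 * (z ^ 3 * R ^ 2)) ≤ y / z := by
    rw [← Nat.div_div_eq_div_mul]; exact Nat.div_mul_le_self _ _
  have b4 := Nat.mul_le_mul_left (2 * (y / (z * k) + 1) + 1) b1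
  have b5 : (2 * (y / (z * k) + 1) + 1) * (320 * k) = 640 * (y / (z * k) * k) + 960 * k := by ring
  have b6 : y / z ≤ k + 1 + L / z := by
    have e : y ≤ L + z * (k + 1) := by
      have := Nat.le_mul_of_pos_left (k + 1) z0
      omega
    refine (Nat.div_le_div_right e).trans ?_
    rw [Nat.add_mul_div_left _ _ z0]
    omega
  have b7 : 1400 * (L / z) ≤ n := by
    refine Nat.le_of_mul_le_mul_left ?_ z0
    have := Nat.mul_div_le L z
    nlinarith
  have c1 : 320 * R * (16 * (z * k * (z * k))) ≤ 2 ^ 35 * (z ^ 10 * R ^ 5) := by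
    have e := Nat.mul_le_mul k2 k2
    have e1 : 320 * R * (16 * (z * k * (z * k))) = 5120 * (R * z ^ 2) * (k * k) := by ring
    have e2 : 5120 * (R * z ^ 2) * (2200 * u * (2200 * u)) = 24780800000 * (z ^ 10 * R ^ 5) := by
      rw [hu]; ring
    have e3 := Nat.mul_le_mul_left (5120 * (R * z ^ 2)) e
    rw [e1]
    rw [e2] at e3
    exact e3.trans (Nat.mul_le_mul_right _ (by norm_num))
  have c2 : 2 ^ 50 * (z ^ 10 * R ^ 5) ≤ n := by
    refine le_trans ?_ hn
    rw [pow_succ z 10, mul_left_comm]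
    exact Nat.mul_le_mul_left _ hz
  have c3 : u ≤ z ^ 10 * R ^ 5 := by
    rw [hu]
    exact Nat.mul_le_mul (Nat.pow_le_pow_right z0 (by norm_num))
      (Nat.pow_le_pow_right hR (by norm_num))
  generalize z ^ 10 * R ^ 5 = T at *
  norm_num at c1 c2
  omega

theorem law_nat' (hS : S_ROUND) {α : Type} [DecidableEq α] [Fintype α] {s n : ℕ} (hs : 128 ≤ s)
    (h1 : 2 ^ (11 * s) ≤ n) (h2 : n < 2 ^ (11 * (s + 1))) {w : FreeGroup α} (hw : w ≠ 1)
    (hL : 1400 * w.norm ≤ 2 ^ s * n) : ∃ f : α → Perm (Fin n), FreeGroup.lift f w ≠ 1 := by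
  obtain ⟨V, hV, hpre⟩ := exists_red hw
  have hL0 : 0 < w.norm := Nat.pos_of_ne_zero fun h => hw (FreeGroup.norm_eq_zero.1 h)
  generalize w.norm = L at hL hpre hL0
  obtain ⟨z, hz⟩ : ∃ z, z = 2 ^ s := ⟨_, rfl⟩
  obtain ⟨R, hR⟩ : ∃ R, R = 50 * (s + 1) := ⟨_, rfl⟩
  have hR1 : 1 ≤ R := by omega
  have hzR : 2 ^ 50 * R ^ 5 ≤ z := by
    have := pow5_le hs
    rw [hR, mul_pow, hz]
    generalize (s + 1) ^ 5 = a at *
    generalize 2 ^ s = c at *
    norm_num at this ⊢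
    omega
  rw [mul_comm, pow_mul, ← hz] at h1
  rw [← hz] at hL
  have z0 : 0 < z := by rw [hz]; positivity
  obtain ⟨M, hM⟩ : ∃ M, M = 100 * (z ^ 3 * R) := ⟨_, rfl⟩
  obtain ⟨G, hG⟩ : ∃ G, G = 2000 * (z ^ 3 * R ^ 2) := ⟨_, rfl⟩
  obtain ⟨k, hk⟩ : ∃ k, k = 200 * (z ^ 3 * R) + z * (2000 * (z ^ 3 * R ^ 2)) := ⟨_, rfl⟩
  have M0 : 0 < z ^ 3 * R := by positivity
  have a1 : z ^ 3 * R ≤ z ^ 3 * R ^ 2 := Nat.mul_le_mul_left _ (by nlinarith)
  have a2 : G ≤ z * G := Nat.le_mul_of_pos_left _ z0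
  have a3 : k = M + M + z * G := by rw [hk, hM, hG]; ring
  have a4 : 20 * M ≤ G := by omega
  have hc := cost_le' hR1 hzR hk h1 hL
  obtain ⟨W, w1, w2, w3⟩ : ∃ W : ℕ → Option α × Bool, (∀ t ≤ k, W t = (none, true)) ∧
      (∀ t < L, W (k + 1 + t) = (some (V t).1, (V t).2)) ∧
      ∀ t, k + 1 + L ≤ t → W t = (none, false) := by
    refine ⟨fun t => if t ≤ k then (none, true) else if t < k + 1 + L then
      (some (V (t - (k + 1))).1, (V (t - (k + 1))).2) else (none, false),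
      fun t ht => if_pos ht, fun t ht => ?_, fun t ht => ?_⟩
    · beta_reduce
      rw [if_neg (by omega), if_pos (by omega), Nat.add_sub_cancel_left]
    · beta_reduce
      rw [if_neg (by omega), if_neg (by omega)]
  have w4 : ∀ t, k < t → t < k + 1 + L → (W t).1 ≠ none := fun t a1 a2 => by
    rw [show t = k + 1 + (t - (k + 1)) by omega, w2 _ (by omega)]
    simp
  have hW : Red W := fun t e => by
    rcases lt_trichotomy t k with c | c | c
    · rw [w1 t c.le, w1 (t + 1) c] at e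
      simp [iv] at e
    · exact w4 (t + 1) (by omega) (by omega) (by rw [e, w1 t c.le]; rfl)
    · rcases lt_trichotomy (t + 1) (k + 1 + L) with d | d | d
      · obtain ⟨j, rfl⟩ : ∃ j, t = k + 1 + j := ⟨t - (k + 1), by omega⟩
        rw [add_assoc _ j, w2 j (by omega), w2 (j + 1) (by omega)] at e
        simp only [iv, Prod.mk.injEq, Option.some.injEq] at e
        exact hV j (Prod.ext e.1 e.2)
      · rw [w3 (t + 1) d.ge] at e
        exact w4 t c (by omega) (congrArg Prod.fst e).symm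
      · rw [w3 t (by omega), w3 (t + 1) d.le] at e
        simp [iv] at e
  have hx : ¬ fb W M k k := by
    rintro ⟨d, d0, d1, d2⟩
    have e := d2 0 (by omega)
    rw [add_zero, w1 _ le_rfl] at e
    by_cases c : k + d < k + 1 + L
    · exact w4 _ (by omega) c (by rw [e])
    · rw [w3 _ (by omega)] at e
      simp at e
  have hy : ¬ fb W M k (k + 1 + L + 1 - k) := by
    rintro ⟨d, d0, d1, d2⟩
    have e := d2 (k - 1 - d) (by omega)
    rw [w3 _ (by omega)] at e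
    by_cases c : k < k + 1 + L + 1 - k + (k - 1 - d)
    · exact w4 _ c (by omega) (by rw [← e])
    · rw [w1 _ (by omega)] at e
      simp at e
  have hzk : 0 < z * k := Nat.mul_pos z0 (by omega)
  have hkn : k + 2 ≤ n := by
    have : k ≤ 320 * R * (16 * (z * k * (z * k))) := by
      have e1 : k ≤ z * k := Nat.le_mul_of_pos_left _ z0
      have e2 : z * k ≤ z * k * (z * k) := Nat.le_mul_of_pos_left _ hzk
      have e3 : 16 * (z * k * (z * k)) ≤ 320 * R * (16 * (z * k * (z * k))) :=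
        Nat.le_mul_of_pos_left _ (by omega)
      omega
    have e := Nat.le_mul_of_pos_left (320 * (1936 * (z ^ 4 * R ^ 2)) + 4 * k +
      5 * (100 * (z ^ 3 * R)) + 10 + 2000 * (z ^ 3 * R ^ 2))
      (show 0 < 2 * ((k + 1 + L) / (z * k) + 1) + 1 by omega)
    omega
  have hy2 : k + 1 + L + 1 ≤ 2 ^ (12 * (s + 1)) := by
    have e1 : n ≤ z * n := Nat.le_mul_of_pos_left _ z0
    have e2 : z * n ≤ 2 ^ s * 2 ^ (11 * (s + 1)) := Nat.mul_le_mul hz.le h2.le
    have e3 : 2 ^ (12 * (s + 1)) = 2 * (2 ^ s * 2 ^ (11 * (s + 1))) := by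
      rw [← pow_add, ← pow_succ']; congr 1; ring
    omega
  have hR' : (R + 1) * ((k + 1 + L) * (k + 1 + L + 1)) < 2 ^ R := by
    have e1 : R + 1 ≤ 2 ^ s := by
      have : R ≤ R ^ 5 := Nat.le_self_pow (by norm_num) R
      norm_num at hzR
      omega
    have e2 := Nat.mul_le_mul e1 (Nat.mul_le_mul ((Nat.le_succ _).trans hy2) hy2)
    rw [← pow_add, ← pow_add] at e2
    exact e2.trans_lt (Nat.pow_lt_pow_right Nat.one_lt_two (by omega))
  have hr : 2 * ((k + 1 + L) / (z * k) + 1) + 1 < 2 ^ R := by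
    have e1 := Nat.div_le_self (k + 1 + L) (z * k)
    have e2 : 2 ^ (12 * (s + 1) + 2) ≤ 2 ^ R := Nat.pow_le_pow_right (by norm_num) (by omega)
    rw [pow_add] at e2
    omega
  have hreal := real_all' (W := W) (k := k) (K := z * k) (M := M) (R := R)
    (A := 1936 * (z ^ 4 * R ^ 2)) (x := k) (y := k + 1 + L)
    (m := (k + 1 + L) / (z * k) + 1) (G := G) (s := 320 * R) hS hW (by omega)
    (by
      have e1 : k ≤ 22 * (z * R) * M := by
        have : 22 * (z * R) * M = 2200 * (z * (z ^ 3 * R ^ 2)) := by rw [hM]; ring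
        have e : z ^ 3 * R ^ 2 ≤ z * (z ^ 3 * R ^ 2) := Nat.le_mul_of_pos_left _ z0
        have e' : z * (2000 * (z ^ 3 * R ^ 2)) = 2000 * (z * (z ^ 3 * R ^ 2)) := by ring
        omega
      have e2 := Nat.mul_le_mul_left z e1
      exact (Nat.mul_le_mul_left 4 (Nat.mul_le_mul e2 e2)).trans (le_of_eq (by ring)))
    hR' (by omega) hx hy (by omega) (by rw [mul_comm]; exact (Nat.lt_mul_div_succ _ hzk).le)
    (rounds_lt hr)
    (by
      have e1 : G = 20 * (M * R) := by rw [hG, hM]; ring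
      have e2 : M ≤ M * R := Nat.le_mul_of_pos_right _ hR1
      have e3 : R ≤ M * R := Nat.le_mul_of_pos_left _ (by omega)
      have e4 : (2 * (M + M + 1) + M) * R = 5 * (M * R) + 2 * R := by ring
      omega)
  rw [show k - (M + M) = z * G by omega, hM, hG] at hreal
  obtain ⟨f, hf⟩ := (hreal.mono hc).perm (by rw [w3 _ le_rfl, w1 _ le_rfl]; rfl)
  refine ⟨fun a => f (some a), fun e => hf ?_⟩
  have key : ∀ t ≤ L, FreeGroup.lift f (pre (sh W (k + 1)) t) =
      FreeGroup.lift (fun a => f (some a)) (pre V t) := by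
    intro t
    induction t with
    | zero => simp [pre]
    | succ t ih =>
      intro ht
      rw [pre, pre, map_mul, map_mul, ih (by omega), sh, w2 t ht]
      congr 1
  rw [key L le_rfl, hpre, e]

end Pool.Agent.P.MP_de9ecd_al.Law
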