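import Pool.Agent.P.MP_de9ecd_al.Law9

/-!
# Laws of symmetric groups, polynomial gain: statements
-/

namespace Pool.Agent.P.MP_de9ecd_al.Law

open Equiv Finset

variable {α Y : Type}

/-- The two outward words of length `k` at the ends of the segment `W a, ..., W b`. -/
def ctx (W : ℕ → α × Bool) (k a b : ℕ) (ε : Bool) (j : ℕ) : α × Bool :=
  cond ε (iv (W (a + k - 1 - j))) (W (b + 1 - k + j))

/-- The number of letters of the segment that are read in the core. -/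
def cl (k a b : ℕ) : ℕ := b + 1 - k - (a + k)

/-- The two roots: the first and the last point of the walk in the core. -/
def rt (σ : α → Perm Y) (W : ℕ → α × Bool) (k a b : ℕ) (v : Y) (ε : Bool) : Y :=
  cond ε v (walk σ (sh W (a + k)) v (cl k a b))

/-- Trees are attached at the marked points. -/
def S_HANG : Prop := ∀ {α ι Y : Type} [Fintype Y] (W : ℕ → α × Bool) (k : ℕ) (σ : α → Perm Y)
    (R : Y → Prop) (J : Finset ι) (a b : ι → ℕ) (v : ι → Y), Red W → 0 < k →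
    (∀ i ∈ J, a i + 2 * k + 1 ≤ b i ∧ (∀ ε, R (rt σ W k (a i) (b i) (v i) ε)) ∧
      ∀ t, 0 < t → t < cl k (a i) (b i) → ¬ R (walk σ (sh W (a i + k)) (v i) t)) →
    (∀ i ∈ J, ∀ j ∈ J, ∀ ε ε', rt σ W k (a i) (b i) (v i) ε = rt σ W k (a j) (b j) (v j) ε' →
      (∀ t < k, ctx W k (a i) (b i) ε t = ctx W k (a j) (b j) ε' t) → i = j ∧ ε = ε') →
    Real W J a b (Fintype.card Y + #J * (2 * k + 2))

/-- Random marking and a large independent family of candidates. -/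
def S_ABS : Prop := ∀ {C Y : Type} [Fintype Y] [DecidableEq Y] [DecidableEq C] (l K : ℕ) (D : ℝ)
    (A : Finset C) (En In : C → Finset Y) (rel : C → C → Prop) [DecidableRel rel],
    0 < l → 0 < D → 1 ≤ 2 * pb l 0 K → (∀ c, rel c c) → (∀ c c', rel c c' → rel c' c) →
    (∀ c ∈ A, #(En c) = 2 ∧ #(In c) ≤ K ∧ Disjoint (En c) (In c)) →
    (∀ c ∈ A, ∑ c' ∈ A with rel c c', pb l #(En c ∪ En c') 0 ≤ D) →
    ∃ (ω : Y → Fin (l + 1)) (S : Finset C), S ⊆ A ∧
      (∀ c ∈ S, (∀ e ∈ En c, ω e = 0) ∧ ∀ e ∈ In c, ω e ≠ 0) ∧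
      (∀ c ∈ S, ∀ c' ∈ S, rel c c' → c = c') ∧ #A * pb l 4 0 ≤ 16 * D * #S

/-- The walk has no repeated point up to time `m`. -/
def Inj (σ : α → Perm Y) (Z : ℕ → α × Bool) (m : ℕ) (v : Y) : Prop :=
  ∀ s ≤ m, ∀ t ≤ m, walk σ Z v s = walk σ Z v t → s = t

open Classical in
/-- For some tuple at least half of the walks are simple. -/
def S_INJ : Prop := ∀ {α κ Y : Type} [Fintype α] [DecidableEq α] [Fintype Y] [DecidableEq Y]
    (P : Finset κ) (Z : κ → ℕ → α × Bool) (m : κ → ℕ) (K : ℕ), (∀ p ∈ P, Red (Z p) ∧ m p ≤ K) →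
    0 < K → 4 * (K * K) ≤ Fintype.card Y → ∃ σ : α → Perm Y,
      #P * Fintype.card Y ≤ 2 * #{q ∈ P ×ˢ (univ : Finset Y) | Inj σ (Z q.1) (m q.1) q.2}

/-- One round: a fixed part of the segments is read on `n` points and short trees. -/
def S_ROUND : Prop := ∀ {α ι : Type} [Fintype α] [DecidableEq α] (W : ℕ → α × Bool)
    (M k K n : ℕ) (I : Finset ι) (x y : ι → ℕ), Red W → 0 < M → 0 < k →
    (∀ i ∈ I, Fr W M k M (x i) ∧ Fr W M k M (y i) ∧ x i + 2 * k + 2 * M + 2 ≤ y i ∧ y i ≤ x i + K) →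
    16 * (K * K) ≤ n → 4 * (K * K) * #I ≤ n * (M * M) →
    ∃ J ⊆ I, #I ≤ 320 * #J ∧ Real W J x y (n + #J * (2 * k + 2 * M + 6))

end Pool.Agent.P.MP_de9ecd_al.Law
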