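import Pool.Agent.P.MP_de9ecd_al.LB.Iface

/-!
# Laws of symmetric groups, polynomial gain: independent candidates
-/

namespace Pool.Agent.P.MP_de9ecd_al.Law

open Equiv Finset

namespace ABSx

theorem indep {C : Type} [DecidableEq C] (G : Finset C) (rel : C → C → Prop) [DecidableRel rel]
    (hr : ∀ c, rel c c) (hs : ∀ c c', rel c c' → rel c' c) {t : ℝ} (ht : 0 < t) :
    ∃ S ⊆ G, (∀ c ∈ S, ∀ c' ∈ S, rel c c' → c = c') ∧
      t * #G - t ^ 2 * ∑ c ∈ G, (#{c' ∈ G | rel c c'} : ℝ) ≤ #S := by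
  obtain ⟨S, h1, h2⟩ := exists_max_image
    {S ∈ ({c ∈ G | t * (#{c' ∈ G | rel c c'} : ℝ) ≤ 1} : Finset C).powerset |
      ∀ c ∈ S, ∀ c' ∈ S, rel c c' → c = c'} card ⟨∅, by simp⟩
  simp only [mem_filter, mem_powerset] at h1 h2
  refine ⟨S, h1.1.trans (filter_subset _ _), h1.2, ?_⟩
  have h3 : {c ∈ G | t * (#{c' ∈ G | rel c c'} : ℝ) ≤ 1} ⊆
      S.biUnion fun s => {c' ∈ G | rel s c'} := fun c hc => by
    by_contra h
    simp only [mem_biUnion, mem_filter, not_exists, not_and] at h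
    replace h := fun s hs => h s hs (mem_filter.1 hc).1
    have h4 := h2 (insert c S) ⟨insert_subset hc h1.1, by
      simp only [forall_mem_insert]
      exact ⟨⟨fun _ => trivial, fun s a b => absurd (hs _ _ b) (h s a)⟩,
        fun s a => ⟨fun b => absurd b (h s a), h1.2 s a⟩⟩⟩
    rw [card_insert_of_notMem fun a => h c a (hr c)] at h4
    omega
  have h4 : (#{c ∈ G | t * (#{c' ∈ G | rel c c'} : ℝ) ≤ 1} : ℝ) ≤
      ∑ s ∈ S, (#{c' ∈ G | rel s c'} : ℝ) := by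
    exact_mod_cast (card_le_card h3).trans card_biUnion_le
  have h5 : t * ∑ s ∈ S, (#{c' ∈ G | rel s c'} : ℝ) ≤ #S := by
    rw [mul_sum]
    simpa using sum_le_card_nsmul S _ 1 fun s a => (mem_filter.1 (h1.1 a)).2
  have h6 : (#{c ∈ G | ¬ t * (#{c' ∈ G | rel c c'} : ℝ) ≤ 1} : ℝ) ≤
      t * ∑ c ∈ G, (#{c' ∈ G | rel c c'} : ℝ) := by
    rw [mul_sum, card_eq_sum_ones, Nat.cast_sum, Nat.cast_one]
    exact (sum_le_sum fun c a => (not_le.1 (mem_filter.1 a).2).le).trans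
      (sum_le_sum_of_subset_of_nonneg (filter_subset _ _) fun _ _ _ => by positivity)
  rw [← card_filter_add_card_filter_not (s := G) fun c => t * (#{c' ∈ G | rel c c'} : ℝ) ≤ 1,
    Nat.cast_add]
  nlinarith [mul_le_mul_of_nonneg_left h4 ht.le, mul_le_mul_of_nonneg_left h6 ht.le]

end ABSx

open ABSx in
theorem s_ABS : S_ABS := by
  intro C Y _ _ _ l K D A En In rel _ hl hD hK hr hs h1 h2
  have hp := pb_pos hl 2 0
  obtain ⟨t, ht⟩ : ∃ t, t = pb l 2 0 / (4 * D) := ⟨_, rfl⟩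
  have t0 : 0 < t := ht ▸ by positivity
  obtain ⟨ω, hω⟩ := exists_le_av fun ω : Y → Fin (l + 1) =>
    t ^ 2 * ∑ c ∈ A, ∑ c' ∈ A with rel c c', ind (En c) (In c) ω * ind (En c') (In c') ω +
      -t * ∑ c ∈ A, ind (En c) (In c) ω
  simp only [av_add, av_mul, av_sum, ind_mul] at hω
  have e1 : ∑ c ∈ A, ∑ c' ∈ A with rel c c', av (ind (l := l) (En c ∪ En c') (In c ∪ In c')) ≤
      #A * D := by
    rw [← nsmul_eq_mul]
    exact sum_le_card_nsmul _ _ _ fun c a => (sum_le_sum fun c' _ =>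
      (av_ind_le _ _).trans (pb_anti le_rfl (Nat.zero_le _))).trans (h2 c a)
  have e2 : #A * (pb l 2 0 / 2) ≤ ∑ c ∈ A, av (ind (l := l) (En c) (In c)) := by
    rw [← nsmul_eq_mul]
    refine card_nsmul_le_sum _ _ _ fun c a => ?_
    have h3 := pb_add l 2 0 0 #(In c)
    have h4 := pb_anti (l := l) (le_refl 0) (h1 c a).2.1
    rw [zero_add] at h3
    rw [av_ind (h1 c a).2.2, (h1 c a).1, h3]
    nlinarith
  obtain ⟨S, s1, s2, s3⟩ := indep {c ∈ A | (∀ e ∈ En c, ω e = 0) ∧ ∀ e ∈ In c, ω e ≠ 0} rel hr hs t0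
  refine ⟨ω, S, s1.trans (filter_subset _ _), fun c a => (mem_filter.1 (s1 a)).2, s2, ?_⟩
  have e3 : ∀ T : Finset C, (#{c ∈ T | (∀ e ∈ En c, ω e = 0) ∧ ∀ e ∈ In c, ω e ≠ 0} : ℝ) =
      ∑ c ∈ T, ind (En c) (In c) ω := fun T => by
    rw [← sum_boole]
    exact sum_congr rfl fun c _ => by rw [ind]; congr
  have e4 : ∑ c ∈ A with (∀ e ∈ En c, ω e = 0) ∧ ∀ e ∈ In c, ω e ≠ 0,
      (#{c' ∈ {c ∈ A | (∀ e ∈ En c, ω e = 0) ∧ ∀ e ∈ In c, ω e ≠ 0} | rel c c'} : ℝ) =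
      ∑ c ∈ A, ∑ c' ∈ A with rel c c', ind (En c ∪ En c') (In c ∪ In c') ω := by
    rw [sum_filter]
    refine sum_congr rfl fun c _ => ?_
    simp only [← ind_mul, ← mul_sum]
    rw [filter_comm, e3, ind, ite_mul, one_mul, zero_mul]
    congr
  rw [e3, e4] at s3
  have e5 : t ^ 2 * (#A * D) + -t * (#A * (pb l 2 0 / 2)) = -(#A * pb l 4 0) / (16 * D) := by
    rw [ht, pb_add l 2 0 2 0]
    field_simp
    ring
  have e6 : -(#S : ℝ) ≤ -(#A * pb l 4 0) / (16 * D) := by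
    nlinarith [mul_le_mul_of_nonneg_left e1 (sq_nonneg t), mul_le_mul_of_nonneg_left e2 t0.le]
  rw [le_div_iff₀ (by positivity)] at e6
  linarith

end Pool.Agent.P.MP_de9ecd_al.Law
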