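import Pool.Agent.P.MP_de9ecd_al.LB.Iface

/-!
# Laws of symmetric groups, polynomial gain: trees are attached at the marked points
-/

namespace Pool.Agent.P.MP_de9ecd_al.Law

open Equiv Finset

namespace HANGx

variable {α Y K : Type}

/-- The core together with one Cayley tree for each key. -/
def s0 (K : Type) (σ : α → Perm Y) : α → Perm (Y ⊕ (K × FreeGroup α)) := fun x =>
  Perm.sumCongr (σ x) (Equiv.prodCongrRight fun _ => tree α x)

theorem sl (σ : α → Perm Y) (l : α × Bool) (u : Y) :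
    st (s0 K σ) l (Sum.inl u) = Sum.inl (st σ l u) := by
  obtain ⟨x, _ | _⟩ := l <;> rfl

theorem sr (σ : α → Perm Y) (l : α × Bool) (κ : K) (g : FreeGroup α) :
    st (s0 K σ) l (Sum.inr (κ, g)) = Sum.inr (κ, st (tree α) l g) := by
  obtain ⟨x, _ | _⟩ := l <;> rfl

theorem ell {σ : α → Perm Y} {l l' : α × Bool} {u u' : Y}
    (h : ed (s0 K σ) l (Sum.inl u) = ed (s0 K σ) l' (Sum.inl u')) :
    (l' = l ∧ u' = u) ∨ (l' = iv l ∧ u' = st σ l u) := by
  simpa only [sl, Sum.inl.injEq] using ed_eq h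

theorem elr {σ : α → Perm Y} {l l' : α × Bool} {u : Y} {q : K × FreeGroup α} :
    ed (s0 K σ) l (Sum.inl u) ≠ ed (s0 K σ) l' (Sum.inr q) := fun h => by
  simpa only [sl, reduceCtorEq, and_false, or_self] using ed_eq h

theorem err {σ : α → Perm Y} {l l' : α × Bool} {κ κ' : K} {g g' : FreeGroup α}
    (h : ed (s0 K σ) l (Sum.inr (κ, g)) = ed (s0 K σ) l' (Sum.inr (κ', g'))) :
    κ = κ' ∧ ed (tree α) l g = ed (tree α) l' g' := by
  rcases ed_eq h with ⟨rfl, e⟩ | ⟨rfl, e⟩
  · obtain ⟨rfl, rfl⟩ := Prod.mk.inj (Sum.inr.inj e)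
    exact ⟨rfl, rfl⟩
  · rw [sr] at e
    obtain ⟨rfl, rfl⟩ := Prod.mk.inj (Sum.inr.inj e)
    exact ⟨rfl, (ed_iv _ _ _).symm⟩

/-- The letter that leads from a root into the core. -/
def ltr (W : ℕ → α × Bool) (k a b : ℕ) (ε : Bool) : α × Bool :=
  cond ε (W (a + k)) (iv (W (b - k)))

variable {W : ℕ → α × Bool} {k a b : ℕ}

theorem red_ctx (hW : Red W) (ε : Bool) : Red (ctx W k a b ε) := fun j => by
  cases ε
  · exact hW (b + 1 - k + j)
  · simp only [ctx, cond_true, iv_iv]
    by_cases h0 : a + k - 1 - j = 0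
    · rw [h0, show a + k - 1 - (j + 1) = 0 by omega]
      exact iv_ne _
    · rw [show a + k - 1 - j = a + k - 1 - (j + 1) + 1 by omega]
      exact (hW _).symm

theorem ctx_ne (hW : Red W) (hk : 0 < k) (hb : k ≤ b) (ε : Bool) :
    ctx W k a b ε 0 ≠ ltr W k a b ε := by
  cases ε
  · simp only [ctx, ltr, cond_false]
    rw [show b + 1 - k + 0 = b - k + 1 by omega]
    exact hW _
  · simp only [ctx, ltr, cond_true]
    have := hW (a + k - 1 - 0)
    rw [show a + k - 1 - 0 + 1 = a + k by omega] at this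
    exact this.symm

theorem tree_ne (hW : Red W) (hk : 0 < k) (hb : k ≤ b) (ε : Bool) (j : ℕ) :
    edg (tree α) (ctx W k a b ε) 1 j ≠ ed (tree α) (ltr W k a b ε) 1 := fun e => by
  have h := edg_tree (V' := fun _ => ltr W k a b ε) (t' := 0) (red_ctx hW ε)
    (fun _ => (iv_ne _).symm) e
  exact ctx_ne hW hk hb ε (h.2 0 (Nat.zero_le _))

end HANGx

open HANGx in
theorem s_HANG : S_HANG := by
  intro α ι Y _ W k σ R J a b v hW hk h1 h2
  classical
  obtain ⟨key, hkey⟩ : ∃ key : ι → Bool → Y × (α × Bool), ∀ i ε,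
    key i ε = (rt σ W k (a i) (b i) (v i) ε, ltr W k (a i) (b i) ε) := ⟨_, fun _ _ => rfl⟩
  obtain ⟨c, hc⟩ : ∃ c : ι → ℕ → Y, ∀ i t, c i t = walk σ (sh W (a i + k)) (v i) (t - (a i + k)) :=
    ⟨_, fun _ _ => rfl⟩
  have cs : ∀ i t, a i + k ≤ t → c i (t + 1) = st σ (W t) (c i t) := fun i t ht => by
    rw [hc, hc, show t + 1 - (a i + k) = t - (a i + k) + 1 by omega, walk, sh,
      show a i + k + (t - (a i + k)) = t by omega]
  have cn : ∀ i ∈ J, ∀ t, a i + k < t → t ≤ b i - k → ¬R (c i t) := fun i hi t ha hb => by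
    have := (h1 i hi).1
    rw [hc]
    exact (h1 i hi).2.2 _ (by omega) (by rw [cl]; omega)
  have z1 : ∀ i, st σ (key i true).2 (key i true).1 = c i (a i + k + 1) := fun i => by
    rw [cs i _ le_rfl, hc, Nat.sub_self, hkey]
    rfl
  have z2 : ∀ i ∈ J, st σ (key i false).2 (key i false).1 = c i (b i - k) := fun i hi => by
    have := (h1 i hi).1
    rw [← st_iv σ (W (b i - k)) (c i (b i - k)), ← cs i _ (by omega), hc, hkey,
      show b i - k + 1 - (a i + k) = cl k (a i) (b i) by rw [cl]; omega]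
    rfl
  have zn : ∀ i ∈ J, ∀ ε, ¬R (st σ (key i ε).2 (key i ε).1) := fun i hi ε => by
    have := (h1 i hi).1
    cases ε
    · rw [z2 i hi]
      exact cn i hi _ (by omega) le_rfl
    · rw [z1]
      exact cn i hi _ (by omega) (by omega)
  have zr : ∀ i ∈ J, ∀ ε, R (key i ε).1 := fun i hi ε => by
    rw [hkey]
    exact (h1 i hi).2.1 ε
  have hD : ∀ κ ∈ (J ×ˢ (univ : Finset Bool)).image fun q => key q.1 q.2,
      ∃ i ∈ J, ∃ ε, key i ε = κ := fun κ hκ => by
    obtain ⟨q, hq, e⟩ := mem_image.1 hκ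
    exact ⟨q.1, (mem_product.1 hq).1, q.2, e⟩
  obtain ⟨σ', s1, s2⟩ := multi_swap (s0 (Y × (α × Bool)) σ) _ (fun κ => κ.2)
    (fun κ ε => cond ε (Sum.inr (κ, 1)) (Sum.inl κ.1)) fun κ hκ κ' hκ' ε ε' e => by
      obtain ⟨i, hi, δ, rfl⟩ := hD κ hκ
      obtain ⟨j, hj, δ', rfl⟩ := hD κ' hκ'
      cases ε <;> cases ε'
      · rcases ell e with e' | e'
        · exact Prod.ext e'.2.symm e'.1.symm
        · exact absurd (e'.2 ▸ zr j hj δ') (zn i hi δ)
      · exact absurd e elr
      · exact absurd e.symm elr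
      · exact (err e).1
  have sw : ∀ i ∈ J, ∀ ε, st σ' (key i ε).2 (Sum.inr (key i ε, 1)) =
      st (s0 _ σ) (key i ε).2 (Sum.inl (key i ε).1) := fun i hi ε =>
    s1 _ (mem_image.2 ⟨(i, ε), mem_product.2 ⟨hi, mem_univ _⟩, rfl⟩)
  have kt : ∀ i ∈ J, ∀ ε l g j, ed (tree α) l g = edg (tree α) (ctx W k (a i) (b i) ε) 1 j →
      st σ' l (Sum.inr (key i ε, g)) = st (s0 _ σ) l (Sum.inr (key i ε, g)) :=
    fun i hi ε l g j e => s2 _ _ fun κ _ ε' e' => by
      have := (h1 i hi).1
      cases ε'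
      · exact absurd e'.symm elr
      · obtain ⟨rfl, e3⟩ := err e'
        rw [e, hkey] at e3
        exact tree_ne hW hk (by omega) ε j e3
  have kc : ∀ l y, ¬R y → ¬R (st σ l y) → st σ' l (Sum.inl y) = st (s0 _ σ) l (Sum.inl y) :=
    fun l y n1 n2 => s2 _ _ fun κ hκ ε' e' => by
      obtain ⟨i, hi, δ, rfl⟩ := hD κ hκ
      cases ε'
      · rcases ell e' with e | e
        · exact n1 (e.2 ▸ zr i hi δ)
        · exact n2 (e.2 ▸ zr i hi δ)
      · exact absurd e' elr
  obtain ⟨p, hp⟩ : ∃ p : ι → ℕ → Y ⊕ ((Y × (α × Bool)) × FreeGroup α), ∀ i t, p i t =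
      if t ≤ a i + k then
        Sum.inr (key i true, walk (tree α) (ctx W k (a i) (b i) true) 1 (a i + k - t))
      else if t ≤ b i - k then Sum.inl (c i t)
      else Sum.inr (key i false, walk (tree α) (ctx W k (a i) (b i) false) 1 (t - (b i + 1 - k))) :=
    ⟨_, fun _ _ => rfl⟩
  have step : ∀ i ∈ J, ∀ t, p i (t + 1) = st σ' (W t) (p i t) ∧
      ((∃ ε j l g, ed σ' (W t) (p i t) = ed (s0 _ σ) l (Sum.inr (key i ε, g)) ∧
        ed (tree α) l g = edg (tree α) (ctx W k (a i) (b i) ε) 1 j ∧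
        t + cond ε (j + 1) 0 = cond ε (a i + k) (b i + 1 - k + j)) ∨
      (a i + k ≤ t ∧ t ≤ b i - k ∧ ((∃ l y, ed σ' (W t) (p i t) = ed (s0 _ σ) l (Sum.inl y)) ∨
        ∃ ε, ed σ' (W t) (p i t) = ed (s0 _ σ) (key i ε).2 (Sum.inr (key i ε, 1))))) := by
    intro i hi t
    have hab := (h1 i hi).1
    rcases lt_trichotomy t (a i + k) with ht | rfl | ht
    · have e0 : W t = iv (ctx W k (a i) (b i) true (a i + k - (t + 1))) := by
        rw [ctx, cond_true, iv_iv, show a i + k - 1 - (a i + k - (t + 1)) = t by omega]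
      have e1 : p i t = Sum.inr (key i true, st (tree α) (ctx W k (a i) (b i) true
          (a i + k - (t + 1))) (walk (tree α) (ctx W k (a i) (b i) true) 1 (a i + k - (t + 1)))) := by
        rw [hp, if_pos ht.le, show a i + k - t = a i + k - (t + 1) + 1 by omega, walk]
      have e2 := kt i hi true _ _ (a i + k - (t + 1)) (ed_iv _ _ _)
      rw [e0, e1]
      exact ⟨by rw [e2, sr, st_iv, hp, if_pos (by omega)], Or.inl ⟨true, _, _, _, ed_congr e2,
        ed_iv _ _ _, by simp only [cond_true]; omega⟩⟩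
    · have e0 : W (a i + k) = (key i true).2 := by rw [hkey]; rfl
      have e1 : p i (a i + k) = Sum.inr (key i true, 1) := by
        rw [hp, if_pos le_rfl, Nat.sub_self, walk]
      rw [e0, e1]
      refine ⟨by rw [sw i hi, sl, z1, hp, if_neg (by omega), if_pos (by omega)],
        Or.inr ⟨le_rfl, by omega, ?_⟩⟩
      exact (ed_swap (sw i hi true)).symm.imp (fun e => ⟨_, _, e⟩) fun e => ⟨_, e⟩
    · rcases lt_trichotomy t (b i - k) with ht' | rfl | ht'
      · have e1 : p i t = Sum.inl (c i t) := by rw [hp, if_neg (by omega), if_pos ht'.le]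
        have e2 := kc (W t) (c i t) (cn i hi t ht ht'.le)
          (by rw [← cs i t ht.le]; exact cn i hi _ (by omega) (by omega))
        rw [e1]
        exact ⟨by rw [e2, sl, ← cs i t ht.le, hp, if_neg (by omega), if_pos (by omega)],
          Or.inr ⟨ht.le, ht'.le, Or.inl ⟨_, _, ed_congr e2⟩⟩⟩
      · have e0 : W (b i - k) = iv (key i false).2 := by rw [hkey]; exact (iv_iv _).symm
        have e1 : p i (b i - k) = st σ' (key i false).2 (Sum.inr (key i false, 1)) := by
          rw [hp, if_neg (by omega), if_pos le_rfl, sw i hi, sl, z2 i hi]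
        rw [e0, e1, st_iv, ed_iv]
        refine ⟨by rw [hp, if_neg (by omega), if_neg (by omega),
          show b i - k + 1 - (b i + 1 - k) = 0 by omega, walk], Or.inr ⟨ht.le, le_rfl, ?_⟩⟩
        exact (ed_swap (sw i hi false)).symm.imp (fun e => ⟨_, _, e⟩) fun e => ⟨_, e⟩
      · have e0 : W t = ctx W k (a i) (b i) false (t - (b i + 1 - k)) := by
          rw [ctx, cond_false, show b i + 1 - k + (t - (b i + 1 - k)) = t by omega]
        have e1 : p i t = Sum.inr (key i false,
            walk (tree α) (ctx W k (a i) (b i) false) 1 (t - (b i + 1 - k))) := by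
          rw [hp, if_neg (by omega), if_neg (by omega)]
        have e2 := kt i hi false _ _ (t - (b i + 1 - k)) rfl
        rw [e0, e1]
        exact ⟨by rw [e2, sr, hp, if_neg (by omega), if_neg (by omega),
          show t + 1 - (b i + 1 - k) = t - (b i + 1 - k) + 1 by omega, walk],
          Or.inl ⟨false, _, _, _, ed_congr e2, rfl, by simp only [cond_false]; omega⟩⟩
  refine ⟨fun i hi => by have := (h1 i hi).1; omega, _, σ', p, univ.image Sum.inl ∪
    J.biUnion fun i => (Icc (a i) (a i + k) ∪ Icc (b i + 1 - k) (b i + 1)).image (p i), ?_,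
    fun i hi t ha hb => ?_, fun i hi t _ _ => (step i hi t).1,
    fun i hi j hj t t' ht ha hb e => ?_⟩
  · refine (card_union_le _ _).trans (add_le_add card_image_le (card_biUnion_le.trans ?_))
    rw [← smul_eq_mul, ← sum_const]
    refine sum_le_sum fun i hi => card_image_le.trans ((card_union_le _ _).trans ?_)
    have := (h1 i hi).1
    rw [Nat.card_Icc, Nat.card_Icc]
    omega
  · by_cases h : a i + k < t ∧ t ≤ b i - k
    · rw [hp, if_neg (by omega), if_pos h.2]
      exact mem_union_left _ (mem_image_of_mem _ (mem_univ _))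
    · refine mem_union_right _ (mem_biUnion.2 ⟨i, hi, mem_image_of_mem _ ?_⟩)
      have := (h1 i hi).1
      simp only [mem_union, mem_Icc]
      omega
  · have hab := (h1 i hi).1
    have hab' := (h1 j hj).1
    rcases (step i hi t).2 with ⟨ε, n, l, g, e1, e2, e3⟩ | ⟨_, _, -⟩
    · have hn : n + 1 = k := by
        cases ε <;> simp only [cond_true, cond_false] at e3 <;> omega
      rw [e1] at e
      rcases (step j hj t').2 with ⟨ε', n', l', g', f1, f2, f3⟩ | ⟨-, -, ⟨l', y, f1⟩ | ⟨ε', f1⟩⟩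
      · obtain ⟨k1, k2⟩ := err (e.trans f1)
        obtain ⟨rfl, k3⟩ := edg_tree (red_ctx hW ε) (red_ctx hW ε') (e2.symm.trans (k2.trans f2))
        rw [hkey, hkey] at k1
        obtain ⟨rfl, rfl⟩ := h2 i hi j hj ε ε' (congrArg Prod.fst k1) fun s hs => k3 s (by omega)
        exact ⟨rfl, by omega⟩
      · exact absurd (e.trans f1).symm elr
      · obtain ⟨k1, k2⟩ := err (e.trans f1)
        rw [← k1, e2, hkey] at k2
        exact absurd k2 (tree_ne hW hk (by omega) ε n)
    · omega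

end Pool.Agent.P.MP_de9ecd_al.Law
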