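import Pool.Agent.P.MP_de9ecd_al.LB.Iface

/-!
# Laws of symmetric groups, polynomial gain: most walks are simple
-/

namespace Pool.Agent.P.MP_de9ecd_al.Law

open Equiv Finset

namespace INJy

open Classical in
theorem card_bad {α Y : Type} [Fintype α] [DecidableEq α] [Fintype Y] [DecidableEq Y]
    {Z : ℕ → α × Bool} (hZ : Red Z) (u : Y) {m K : ℕ} (h0 : m ≤ K) (hm : 2 * K ≤ Fintype.card Y) :
    #{σ : α → Perm Y | ¬ Inj σ Z m u} * Fintype.card Y ≤
      2 * (K * K) * Fintype.card (α → Perm Y) := by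
  have h1 : ({σ : α → Perm Y | ¬ Inj σ Z m u} : Finset _) ⊆ (range K ×ˢ range K).biUnion fun p =>
      {σ : α → Perm Y | p.2 ≤ p.1 ∧ (∀ i ≤ p.1, ∀ j ≤ p.1, walk σ Z u i = walk σ Z u j → i = j) ∧
        walk σ Z u (p.1 + 1) = walk σ Z u p.2} := fun σ hσ => by
    have k0 : ∃ t, t < m ∧ ∃ j ≤ t, walk σ Z u (t + 1) = walk σ Z u j := by
      have := (mem_filter.1 hσ).2
      simp only [Inj, not_forall] at this
      obtain ⟨a, ha, b, hb, e, ne⟩ := this
      rcases lt_trichotomy a b with c | c | c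
      · exact ⟨b - 1, by omega, a, by omega, by rw [Nat.sub_add_cancel (by omega), e]⟩
      · exact absurd c ne
      · exact ⟨a - 1, by omega, b, by omega, by rw [Nat.sub_add_cancel (by omega), e]⟩
    obtain ⟨t0, t1, t2⟩ := k0
    have k : ∃ t, ∃ j ≤ t, walk σ Z u (t + 1) = walk σ Z u j := ⟨t0, t2⟩
    obtain ⟨j, j1, j2⟩ := Nat.find_spec k
    have k1 : Nat.find k ≤ t0 := Nat.find_min' k t2
    have k2 := fun t => Nat.find_min k (m := t)
    generalize Nat.find k = t at j1 j2 k1 k2
    refine mem_biUnion.2 ⟨(t, j), by simp; omega, mem_filter.2 ⟨mem_univ _, j1, ?_, j2⟩⟩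
    intro a ha b hb e
    rcases lt_trichotomy a b with c | c | c
    · exact absurd ⟨a, by omega, by rw [Nat.sub_add_cancel (by omega), e]⟩ (k2 (b - 1) (by omega))
    · exact c
    · exact absurd ⟨b, by omega, by rw [Nat.sub_add_cancel (by omega), e]⟩ (k2 (a - 1) (by omega))
  refine (Nat.mul_le_mul_right _ ((card_le_card h1).trans card_biUnion_le)).trans ?_
  rw [sum_mul]
  refine (sum_le_card_nsmul _ _ (2 * Fintype.card (α → Perm Y)) fun p hp => ?_).trans
    (by simp only [card_product, card_range, smul_eq_mul]; exact le_of_eq (by ring))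
  by_cases c : p.2 ≤ p.1
  · have h2 := card_first hZ u c
    have h3 : p.1 < K := mem_range.1 (mem_product.1 hp).1
    simp only [c, true_and]
    refine le_trans (Nat.mul_le_mul_left _
      (show Fintype.card Y ≤ 2 * (Fintype.card Y - (p.1 + 1)) by omega)) ?_
    rw [mul_left_comm]
    exact Nat.mul_le_mul_left _ h2
  · simp [c]

end INJy

theorem s_INJ' : S_INJ := by
  classical
  intro α κ Y _ _ _ _ P Z m K hP hK hY
  have hKK : K ≤ K * K := Nat.le_mul_of_pos_left _ hK
  have hY0 : 0 < Fintype.card Y := by omega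
  have h1 : ∑ σ : α → Perm Y, 2 * #{q ∈ P ×ˢ (univ : Finset Y) | ¬ Inj σ (Z q.1) (m q.1) q.2} ≤
      ∑ _σ : α → Perm Y, #P * Fintype.card Y := by
    rw [← mul_sum]
    simp only [card_filter]
    rw [sum_comm]
    simp only [← card_filter]
    rw [mul_sum, sum_const, card_univ, smul_eq_mul]
    refine (sum_le_card_nsmul _ _ (Fintype.card (α → Perm Y)) fun q hq => ?_).trans
      (by rw [card_product, card_univ, smul_eq_mul, mul_comm])
    have hq' := hP q.1 (mem_product.1 hq).1
    have := INJy.card_bad hq'.1 q.2 hq'.2 (by omega)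
    refine Nat.le_of_mul_le_mul_right ?_ hY0
    have e := Nat.mul_le_mul_left (Fintype.card (α → Perm Y)) hY
    nlinarith
  obtain ⟨σ, -, hσ⟩ := exists_le_of_sum_le univ_nonempty h1
  refine ⟨σ, ?_⟩
  have := card_filter_add_card_filter_not (s := P ×ˢ (univ : Finset Y))
    fun q => Inj σ (Z q.1) (m q.1) q.2
  rw [card_product, card_univ] at this
  omega

end Pool.Agent.P.MP_de9ecd_al.Law
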