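import Pool.Agent.P.MP_de9ecd_al.LB.Iface

/-!
# Laws of symmetric groups, polynomial gain: one round
-/

namespace Pool.Agent.P.MP_de9ecd_al.Law

open Equiv Finset

namespace ROUNDx

variable {α ι Y : Type} {W : ℕ → α × Bool} {σ : α → Perm Y} {M k K : ℕ}

theorem cover {C J : Type} [Fintype J] (s : Finset C) (f : C → ℝ) (q : J → C → Prop)
    [∀ j, DecidablePred (q j)] (β N : J → ℝ) (hβ : ∀ j, 0 ≤ β j)
    (h : ∀ c ∈ s, ∃ j, q j c ∧ f c ≤ β j) (hN : ∀ j, (#{c ∈ s | q j c} : ℝ) ≤ N j) :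
    ∑ c ∈ s, f c ≤ ∑ j, N j * β j := by
  calc ∑ c ∈ s, f c ≤ ∑ c ∈ s, ∑ j, if q j c then β j else 0 := sum_le_sum fun c hc => by
        obtain ⟨j, h1, h2⟩ := h c hc
        refine h2.trans (le_trans (le_of_eq (if_pos h1).symm) (single_le_sum
          (f := fun j => if q j c then β j else 0) (fun j _ => ?_) (mem_univ j)))
        split_ifs
        exacts [hβ j, le_rfl]
    _ ≤ _ := by
        rw [sum_comm]
        refine sum_le_sum fun j _ => ?_
        rw [← sum_filter, sum_const, nsmul_eq_mul]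
        exact mul_le_mul_of_nonneg_right (hN j) (hβ j)

theorem walk_add (σ : α → Perm Y) (V : ℕ → α × Bool) (v : Y) (s t : ℕ) :
    walk σ V v (s + t) = walk σ (sh V s) (walk σ V v s) t := by
  induction t with
  | zero => rfl
  | succ t ih => rw [← add_assoc, walk, walk, ih]; rfl

theorem rt_inj {a b : ℕ} {v v' : Y} {ε : Bool} (h : rt σ W k a b v ε = rt σ W k a b v' ε) :
    v = v' := by
  cases ε
  exacts [walk_inj σ _ _ h, h]

theorem ctx_true {z a a' b b' : ℕ} (hz : Fr W M k M z) (h1 : z < a) (h2 : a' ≤ z + M)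
    (h : ∀ t < k, ctx W k a b true t = ctx W k a' b' true t) : a' ≤ a := by
  by_contra c
  refine hz a (by omega) (by omega) ⟨a' - a, by omega, by omega, fun i hi => ?_⟩
  have := iv_inj (h (k - 1 - i) (by omega))
  rw [show a + k - 1 - (k - 1 - i) = a + i by omega] at this
  rw [this]
  congr 1
  omega

theorem ctx_false {z a a' b b' : ℕ} (hz : Fr W M k M z) (h0 : k ≤ b) (h1 : z ≤ b + M) (h2 : b' < z)
    (h : ∀ t < k, ctx W k a b false t = ctx W k a' b' false t) : b' ≤ b := by
  by_contra c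
  refine hz (b + 1 - k) (by omega) (by omega) ⟨b' - b, by omega, by omega, fun i hi => ?_⟩
  refine Eq.trans ?_ (h i (by omega)).symm
  change W _ = W _
  congr 1
  omega

theorem both_true {a b b' : ℕ} {v : Y} (h : Inj σ (sh W (a + k)) (cl k a b') v)
    (e : rt σ W k a b v false = rt σ W k a b' v false) (h0 : a + 2 * k ≤ b) : b' ≤ b := by
  by_contra c
  have := h _ (by unfold cl; omega) _ le_rfl e
  unfold cl at this
  omega

theorem both_false {a a' b : ℕ} {v : Y} (h : Inj σ (sh W (a + k)) (cl k a b) v)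
    (e : rt σ W k a b v false = rt σ W k a' b v false) (h0 : a' + 2 * k ≤ b) : a' ≤ a := by
  by_contra c
  have e1 : cl k a b = a' - a + cl k a' b := by unfold cl; omega
  have e2 : sh (sh W (a + k)) (a' - a) = sh W (a' + k) := by
    funext t
    change W _ = W _
    congr 1
    omega
  change walk σ _ v _ = walk σ _ v _ at e
  rw [e1, walk_add, e2] at e
  have := h _ (by omega) 0 (Nat.zero_le _) (walk_inj σ _ _ e)
  omega

/-- The first position of a candidate. -/
def aa (x : ι → ℕ) (p : ι × ℕ × ℕ) : ℕ := x p.1 + 1 + p.2.1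

/-- The last position of a candidate. -/
def bb (y : ι → ℕ) (p : ι × ℕ × ℕ) : ℕ := y p.1 - 1 - p.2.2

variable (σ W M k K) (I : Finset ι) (x y : ι → ℕ)

/-- The roots of a candidate. -/
def rr (c : (ι × ℕ × ℕ) × Y) : Bool → Y := rt σ W k (aa x c.1) (bb y c.1) c.2

/-- Equal roots with equal outward words. -/
def Mt (c c' : (ι × ℕ × ℕ) × Y) (ε ε' : Bool) : Prop := rr W σ k x y c ε = rr W σ k x y c' ε' ∧
  ∀ t < k, ctx W k (aa x c.1) (bb y c.1) ε t = ctx W k (aa x c'.1) (bb y c'.1) ε' t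

/-- The properties of a candidate. -/
structure Ok (c : (ι × ℕ × ℕ) × Y) : Prop where
  mem : c.1.1 ∈ I
  l1 : c.1.2.1 < M
  l2 : c.1.2.2 < M
  fx : Fr W M k M (x c.1.1)
  fy : Fr W M k M (y c.1.1)
  le : x c.1.1 + 2 * k + 2 * M + 2 ≤ y c.1.1
  ge : y c.1.1 ≤ x c.1.1 + K
  inj : Inj σ (sh W (aa x c.1 + k)) (cl k (aa x c.1) (bb y c.1)) c.2

variable {σ W M k K I x y} {c c' d : (ι × ℕ × ℕ) × Y}

theorem Ok.rr_inj (h : Ok W σ M k K I x y c) : Function.Injective (rr W σ k x y c) := by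
  have := h.l1
  have := h.l2
  have := h.le
  have key : rr W σ k x y c true ≠ rr W σ k x y c false := fun e => by
    have := h.inj 0 (Nat.zero_le _) _ le_rfl e
    unfold cl aa bb at this
    omega
  rintro (_ | _) (_ | _) e
  exacts [rfl, absurd e.symm key, absurd e key, rfl]

theorem Ok.side (h : Ok W σ M k K I x y c) (h' : Ok W σ M k K I x y c') (e : c.1.1 = c'.1.1)
    {ε ε' : Bool} (m : Mt W σ k x y d c ε ε') (m' : Mt W σ k x y d c' ε ε') :
    cond ε' c.1.2.1 c.1.2.2 = cond ε' c'.1.2.1 c'.1.2.2 := by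
  have := h.l1
  have := h.l2
  have := h.le
  have := h'.l1
  have := h'.l2
  have ex : x c'.1.1 = x c.1.1 := by rw [e]
  have ey : y c'.1.1 = y c.1.1 := by rw [e]
  have m1 := fun t ht => (m.2 t ht).symm.trans (m'.2 t ht)
  have m2 := fun t ht => (m1 t ht).symm
  cases ε'
  · have := ctx_false h.fy (by unfold bb; omega) (by unfold bb; omega) (by unfold bb; omega) m1
    have := ctx_false h.fy (by unfold bb; omega) (by unfold bb; omega) (by unfold bb; omega) m2
    unfold bb at *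
    simp only [cond_false]
    omega
  · have := ctx_true h.fx (by unfold aa; omega) (by unfold aa; omega) m1
    have := ctx_true h.fx (by unfold aa; omega) (by unfold aa; omega) m2
    unfold aa at *
    simp only [cond_true]
    omega

theorem eq_of {ε : Bool} (e : c.1 = c'.1) (r : rr W σ k x y c ε = rr W σ k x y c' ε) : c = c' := by
  unfold rr at r
  rw [e] at r
  exact Prod.ext e (rt_inj r)

theorem Ok.both (h : Ok W σ M k K I x y c) (h' : Ok W σ M k K I x y c') (e : c.1.1 = c'.1.1)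
    {ε : Bool} (s : cond ε c.1.2.1 c.1.2.2 = cond ε c'.1.2.1 c'.1.2.2)
    (r : rr W σ k x y c ε = rr W σ k x y c' ε) (r' : rr W σ k x y c (!ε) = rr W σ k x y c' (!ε)) :
    c = c' := by
  have := h.l1
  have := h.l2
  have := h.le
  have := h'.l1
  have := h'.l2
  have ex : x c'.1.1 = x c.1.1 := by rw [e]
  have ey : y c'.1.1 = y c.1.1 := by rw [e]
  have i1 := h.inj
  have i2 := h'.inj
  refine eq_of (Prod.ext e ?_) r
  unfold rr at r r'
  cases ε
  · have v : c.2 = c'.2 := r'
    have b : bb y c.1 = bb y c'.1 := by rw [bb, bb, ey, show c.1.2.2 = c'.1.2.2 from s]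
    rw [← v, ← b] at r i2
    have := both_false i1 r (by unfold aa bb; omega)
    have := both_false i2 r.symm (by unfold aa bb; omega)
    exact Prod.ext (by unfold aa at *; omega) s
  · have v : c.2 = c'.2 := r
    have a : aa x c.1 = aa x c'.1 := by rw [aa, aa, ex, show c.1.2.1 = c'.1.2.1 from s]
    rw [← v, ← a] at r' i2
    have := both_true i2 r' (by unfold aa bb; omega)
    have := both_true i1 r'.symm (by unfold aa bb; omega)
    exact Prod.ext s (by unfold bb at *; omega)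

open Classical in
theorem bound [Fintype Y] [DecidableEq Y] {A : Finset ((ι × ℕ × ℕ) × Y)}
    (hA : ∀ c ∈ A, Ok W σ M k K I x y c) (hc : c ∈ A) (l : ℕ) :
    ∑ c' ∈ A with (c.1.1 = c'.1.1 ∨ ∃ ε ε', Mt W σ k x y c c' ε ε'),
      pb l #(univ.image (rr W σ k x y c) ∪ univ.image (rr W σ k x y c')) 0 ≤
      M * M * Fintype.card Y * pb l 4 0 +
        4 * (M * M * pb l 2 0 + #I * M * pb l 3 0 + #I * pb l 2 0) := by
  have c2 : ∀ c ∈ A, #(univ.image (rr W σ k x y c)) = 2 := fun c hc => by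
    rw [card_image_of_injective _ (hA c hc).rr_inj, card_univ, Fintype.card_bool]
  have w2 : ∀ c', pb l #(univ.image (rr W σ k x y c) ∪ univ.image (rr W σ k x y c')) 0 ≤ pb l 2 0 :=
    fun c' => pb_anti ((c2 c hc).ge.trans (card_le_card subset_union_left)) le_rfl
  refine (cover (J := Option (Fin 3 × Bool × Bool)) _ _
    (fun j c' => j.elim (c.1.1 = c'.1.1) fun j =>
      ![c.1.1 = c'.1.1 ∧ rr W σ k x y c j.2.1 = rr W σ k x y c' j.2.2, Mt W σ k x y c c' j.2.1 j.2.2,
        Mt W σ k x y c c' j.2.1 j.2.2 ∧ rr W σ k x y c (!j.2.1) = rr W σ k x y c' (!j.2.2)] j.1)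
    (fun j => pb l (j.elim 4 fun j => ![2, 3, 2] j.1) 0)
    (fun j => j.elim (M * M * Fintype.card Y) fun j => ![M * M, #I * M, #I] j.1)
    (fun _ => pb_nonneg _ _ _) (fun c' hc' => ?_) ?_).trans (le_of_eq ?_)
  · obtain ⟨hc', e | ⟨ε, ε', m⟩⟩ := mem_filter.1 hc'
    · by_cases h : ∃ ε ε', rr W σ k x y c ε = rr W σ k x y c' ε'
      · obtain ⟨ε, ε', h⟩ := h
        exact ⟨some (0, ε, ε'), ⟨e, h⟩, w2 c'⟩
      · refine ⟨none, e, le_of_eq ?_⟩
        rw [card_union_of_disjoint, c2 c hc, c2 c' hc']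
        · rfl
        · refine disjoint_left.2 fun z h1 h2 => ?_
          obtain ⟨ε, -, rfl⟩ := mem_image.1 h1
          obtain ⟨ε', -, h3⟩ := mem_image.1 h2
          exact h ⟨ε, ε', h3.symm⟩
    · by_cases h : rr W σ k x y c (!ε) = rr W σ k x y c' (!ε')
      · exact ⟨some (2, ε, ε'), ⟨m, h⟩, w2 c'⟩
      · refine ⟨some (1, ε, ε'), m, pb_anti (le_trans (le_of_eq ?_) (card_le_card
          (s := insert (rr W σ k x y c' (!ε')) (univ.image (rr W σ k x y c))) ?_)) le_rfl⟩
        · rw [card_insert_of_notMem, c2 c hc]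
          · rfl
          · intro h1
            obtain ⟨η, -, h2⟩ := mem_image.1 h1
            by_cases e : η = ε
            · have := (hA c' hc').rr_inj (m.1.symm.trans (e ▸ h2))
              simp at this
            · exact h (Bool.eq_not.2 e ▸ h2)
        · exact insert_subset (mem_union_right _ (mem_image_of_mem _ (mem_univ _)))
            subset_union_left
  · have mem : ∀ {q : (ι × ℕ × ℕ) × Y → Prop} {q' : (ι × ℕ × ℕ) × Y → Prop} [DecidablePred q]
        [DecidablePred q'] {c'}, c' ∈ (↑(filter q (filter q' A)) : Set _) →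
        Ok W σ M k K I x y c' ∧ q c' := fun h =>
      ⟨hA _ (mem_filter.1 (mem_filter.1 h).1).1, (mem_filter.1 h).2⟩
    rintro (_ | ⟨j, ε, ε'⟩)
    · refine le_trans (Nat.cast_le.2 (card_le_card_of_injOn (t := (range M ×ˢ range M) ×ˢ univ)
        (fun c' => (c'.1.2, c'.2)) (fun c' h => ?_) fun c' h c'' h' e => ?_)) (by simp)
      · simp [(mem h).1.l1, (mem h).1.l2]
      · exact Prod.ext (Prod.ext ((mem h).2.symm.trans (mem h').2) (Prod.mk.inj e).1)
          (Prod.mk.inj e).2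
    · fin_cases j
      · refine le_trans (Nat.cast_le.2 (card_le_card_of_injOn (t := range M ×ˢ range M)
          (fun c' => c'.1.2) (fun c' h => ?_) fun c' h c'' h' e => ?_)) (by simp)
        · simp [(mem h).1.l1, (mem h).1.l2]
        · exact eq_of (Prod.ext ((mem h).2.1.symm.trans (mem h').2.1) e)
            ((mem h).2.2.symm.trans (mem h').2.2)
      · refine le_trans (Nat.cast_le.2 (card_le_card_of_injOn (t := I ×ˢ range M)
          (fun c' => (c'.1.1, cond ε' c'.1.2.2 c'.1.2.1)) (fun c' h => ?_)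
          fun c' h c'' h' e => ?_)) (by simp)
        · cases ε' <;> simp [(mem h).1.l1, (mem h).1.l2, (mem h).1.mem]
        · obtain ⟨e1, e2⟩ := Prod.mk.inj e
          have := (mem h).1.side (mem h').1 e1 (mem h).2 (mem h').2
          refine eq_of (Prod.ext e1 ?_) ((mem h).2.1.symm.trans (mem h').2.1)
          cases ε'
          exacts [Prod.ext e2 this, Prod.ext this e2]
      · refine le_trans (Nat.cast_le.2 (card_le_card_of_injOn (t := I)
          (fun c' => c'.1.1) (fun c' h => (mem h).1.mem) fun c' h c'' h' e => ?_)) (by simp)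
        exact (mem h).1.both (mem h').1 e ((mem h).1.side (mem h').1 e (mem h).2.1 (mem h').2.1)
          ((mem h).2.1.1.symm.trans (mem h').2.1.1) ((mem h).2.2.symm.trans (mem h').2.2)
  · simp [Fintype.sum_option, Fintype.sum_prod_type, Fin.sum_univ_three]
    ring

theorem num {M n I r : ℝ} (hM : 0 ≤ M) (hI : 0 ≤ I) (h1 : 4 ≤ n * r ^ 2)
    (h2 : I ≤ n * (M * M) * r ^ 2) (h3 : M * r ≤ 1) :
    M * M * n * r ^ 4 + 4 * (M * M * r ^ 2 + I * M * r ^ 3 + I * r ^ 2) ≤ 10 * (M * M * n) * r ^ 4 := by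
  have a1 := mul_le_mul_of_nonneg_left h1 (show 0 ≤ M * M * r ^ 2 by positivity)
  have a2 := mul_le_mul_of_nonneg_left h2 (sq_nonneg r)
  have a3 := mul_le_mul_of_nonneg_left h3 (show 0 ≤ I * r ^ 2 by positivity)
  nlinarith

end ROUNDx

open ROUNDx

theorem s_ROUND (hH : S_HANG) (hA : S_ABS) (hI : S_INJ) : S_ROUND := by
  intro α ι _ _ W M k K n I x y hW hM hk hx hn hc
  classical
  rcases I.eq_empty_or_nonempty with rfl | ⟨i₀, hi₀⟩
  · exact ⟨∅, le_rfl, by simp, (real_empty W x y).mono (Nat.zero_le _)⟩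
  have hK : 2 * M + 2 ≤ K := by have := hx i₀ hi₀; omega
  obtain ⟨l, hl⟩ : ∃ l, l + 1 = 2 * K := ⟨2 * K - 1, by omega⟩
  have hl' : (l + 1 : ℝ) = 2 * K := by exact_mod_cast hl
  have hK0 : (0 : ℝ) < K := Nat.cast_pos.2 (by omega)
  have hM0 : (0 : ℝ) < M := Nat.cast_pos.2 hM
  have hn0 : (0 : ℝ) < n := Nat.cast_pos.2 (by nlinarith)
  have hp : ∀ a, pb l a 0 = (1 / (2 * K : ℝ)) ^ a := fun a => by rw [pb, pow_zero, mul_one, hl']
  obtain ⟨σ, A, a1, a2⟩ : ∃ (σ : α → Perm (Fin n)) (A : Finset ((ι × ℕ × ℕ) × Fin n)),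
      #I * (M * M) * n ≤ 2 * #A ∧ ∀ c ∈ A, Ok W σ M k K I x y c := by
    obtain ⟨σ, hσ⟩ := hI (Y := Fin n) (I ×ˢ range M ×ˢ range M) (fun p => sh W (aa x p + k))
      (fun p => cl k (aa x p) (bb y p)) K (fun p hp => ⟨hW.sh _, by
        have := hx _ (mem_product.1 hp).1
        unfold cl aa bb
        omega⟩) (by omega) (by rw [Fintype.card_fin]; omega)
    rw [card_product, card_product, card_range, Fintype.card_fin] at hσ
    refine ⟨σ, _, hσ, fun c h => ?_⟩
    simp only [mem_filter, mem_product, mem_range] at h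
    have := hx _ h.1.1.1
    exact ⟨h.1.1.1, h.1.1.2.1, h.1.1.2.2, this.1, this.2.1, this.2.2.1, this.2.2.2, h.2⟩
  obtain ⟨ω, S, s1, s2, s3, s4⟩ := hA l K (10 * (M * M * n) * (1 / (2 * K : ℝ)) ^ 4) A
    (fun c => univ.image (rr W σ k x y c))
    (fun c => (Ioo 0 (cl k (aa x c.1) (bb y c.1))).image (walk σ (sh W (aa x c.1 + k)) c.2))
    (fun c c' => c.1.1 = c'.1.1 ∨ ∃ ε ε', Mt W σ k x y c c' ε ε') (by omega) (by positivity)
    (by
      have h1 := one_add_mul_le_pow (a := -(1 / (2 * K : ℝ))) (by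
        have : 1 / (2 * K : ℝ) ≤ 1 := by
          rw [← hl', div_le_one (by positivity)]
          linarith [Nat.cast_nonneg (α := ℝ) l]
        linarith) K
      rw [pb, pow_zero, one_mul, show (l : ℝ) = 2 * K - 1 by linarith, sub_add_cancel,
        show (2 * K - 1 : ℝ) / (2 * K) = 1 + -(1 / (2 * K)) by field_simp; ring]
      rw [show (K : ℝ) * -(1 / (2 * K)) = -(1 / 2) by field_simp] at h1
      linarith)
    (fun c => .inl rfl)
    (by
      rintro c c' (e | ⟨ε, ε', m⟩)
      exacts [.inl e.symm, .inr ⟨ε', ε, m.1.symm, fun t ht => (m.2 t ht).symm⟩])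
    (fun c h => by
      have o := a2 c h
      refine ⟨by rw [card_image_of_injective _ o.rr_inj, card_univ, Fintype.card_bool],
        card_image_le.trans ?_, disjoint_left.2 fun z h1 h2 => ?_⟩
      · have := o.ge
        rw [Nat.card_Ioo]
        unfold cl aa bb
        omega
      · obtain ⟨ε, -, rfl⟩ := mem_image.1 h1
        obtain ⟨t, ht, h3⟩ := mem_image.1 h2
        rw [mem_Ioo] at ht
        cases ε
        · exact ht.2.ne (o.inj t ht.2.le _ le_rfl h3)
        · exact ht.1.ne' (o.inj t ht.2.le 0 (Nat.zero_le _) h3))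
    (fun c h => by
      refine le_trans (le_of_eq (by convert rfl)) ((bound a2 h l).trans ?_)
      rw [hp, hp, hp, Fintype.card_fin]
      have b1 : (16 * (K * K) : ℝ) ≤ n := by exact_mod_cast hn
      have b2 : (4 * (K * K) * #I : ℝ) ≤ n * (M * M) := by exact_mod_cast hc
      have b3 : (2 * M + 2 : ℝ) ≤ K := by exact_mod_cast hK
      refine num hM0.le (Nat.cast_nonneg _) ?_ ?_ ?_
      · rw [div_pow, one_pow, mul_one_div, le_div_iff₀ (by positivity)]
        nlinarith
      · rw [div_pow, one_pow, mul_one_div, le_div_iff₀ (by positivity)]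
        nlinarith
      · rw [mul_one_div, div_le_one (by positivity)]
        linarith)
  have hinj : Set.InjOn (fun c : (ι × ℕ × ℕ) × Fin n => c.1.1) S := fun c h c' h' e =>
    s3 c h c' h' (.inl e)
  have R1 := (hH W k σ (fun z => ω z = 0) S (fun c => aa x c.1) (fun c => bb y c.1) (fun c => c.2)
    hW hk (fun c h => ?_) fun c h c' h' ε ε' e1 e2 => ?_).ext hW (x := fun c => x c.1.1)
    (y := fun c => y c.1.1) (D := M) (fun c h => ?_) fun c h => ?_
  · have : Nonempty ((ι × ℕ × ℕ) × Fin n) := ⟨((i₀, 0, 0), ⟨0, Nat.cast_pos.1 hn0⟩)⟩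
    refine ⟨S.image fun c => c.1.1, image_subset_iff.2 fun c h => (a2 c (s1 h)).mem, ?_, ?_⟩
    · rw [card_image_of_injOn hinj]
      have b1 : (#I * (M * M) * n : ℝ) ≤ 2 * #A := by exact_mod_cast a1
      rw [hp] at s4
      have b2 : (#A : ℝ) ≤ 160 * (M * M * n) * #S :=
        le_of_mul_le_mul_right (a := (1 / (2 * K : ℝ)) ^ 4) (by linarith) (by positivity)
      have b3 : (#I : ℝ) ≤ 320 * #S :=
        le_of_mul_le_mul_right (a := (M * M * n : ℝ)) (by linarith) (by positivity)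
      exact_mod_cast b3
    · obtain ⟨f, key⟩ : ∃ f : ι → (ι × ℕ × ℕ) × Fin n, ∀ i ∈ S.image fun c => c.1.1,
          f i ∈ S ∧ (f i).1.1 = i :=
        ⟨Function.invFunOn (fun c => c.1.1) S, fun i hi => Function.invFunOn_pos (mem_image.1 hi)⟩
      refine (R1.reidx f (fun i hi => ⟨(key i hi).1, by rw [(key i hi).2], by rw [(key i hi).2]⟩)
        fun i hi j hj e => by rw [← (key i hi).2, e, (key j hj).2]).mono (le_of_eq ?_)
      rw [card_image_of_injOn hinj, Fintype.card_fin]
      ring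
  · have o := a2 c (s1 h)
    have := o.l1
    have := o.l2
    have := o.le
    exact ⟨by unfold aa bb; omega, fun ε => (s2 c h).1 _ (mem_image_of_mem _ (mem_univ ε)),
      fun t h1 h2 => (s2 c h).2 _ (mem_image_of_mem _ (mem_Ioo.2 ⟨h1, h2⟩))⟩
  · obtain rfl := s3 c h c' h' (.inr ⟨ε, ε', e1, e2⟩)
    exact ⟨rfl, (a2 c (s1 h)).rr_inj e1⟩
  · have := (a2 c (s1 h)).l1
    unfold aa
    omega
  · have := (a2 c (s1 h)).l2
    have := (a2 c (s1 h)).le
    unfold bb
    omega

end Pool.Agent.P.MP_de9ecd_al.Law
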